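import Pool.Agent.H69.ColO.Greedy

/-!
The bound `ln t + ln ln t + 5` for odd `t`, and explicit bounds for `t = 7` and `t = 9`.
-/

set_option autoImplicit false
set_option linter.unusedSectionVars false

open Finset Filter Topology

namespace Pool.Agent.H69.ColO

/-- the third term -/
lemma third {r : ℕ} {y z l q : ℝ} (hq : 0 < q) (hy : 0 < y) (hz : 0 < z)
    (hl : q * (Real.exp 1 * y / 2) ≤ l) :
    1 / (2 ^ (r + 1) * (r.factorial : ℝ)) * (l * z + 1) * (1 / l) ^ (r + 2) *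
      (((r : ℝ) + 1) * y) ^ r ≤ (z / y + 1 / (l * y)) * (1 / q) ^ (r + 1) := by
  have hf : (0 : ℝ) < (r.factorial : ℝ) := by exact_mod_cast r.factorial_pos
  have he : (0 : ℝ) < Real.exp 1 := Real.exp_pos 1
  have hl0 : 0 < l := lt_of_lt_of_le (by positivity) hl
  have h2 : (q * (Real.exp 1 * y / 2)) ^ (r + 1) ≤ l ^ (r + 1) :=
    pow_le_pow_left₀ (by positivity) hl _
  have h3 : (((r + 1 : ℕ) : ℝ)) ^ (r + 1) / ((r + 1).factorial : ℝ) ≤ Real.exp ((r + 1 : ℕ) : ℝ) :=
    Real.pow_div_factorial_le_exp _ (by positivity) (r + 1)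
  have h4 : Real.exp ((r + 1 : ℕ) : ℝ) = Real.exp 1 ^ (r + 1) := by
    rw [← Real.exp_nat_mul, mul_one]
  have h5 : ((r : ℝ) + 1) ^ r ≤ (r.factorial : ℝ) * Real.exp 1 ^ (r + 1) := by
    rw [h4, Nat.factorial_succ] at h3
    push_cast at h3
    rw [div_le_iff₀ (by positivity), pow_succ ((r : ℝ) + 1) r] at h3
    have h6 : (0 : ℝ) < (r : ℝ) + 1 := by positivity
    have h7 : ((r : ℝ) + 1) ^ r * ((r : ℝ) + 1) ≤
        ((r.factorial : ℝ) * Real.exp 1 ^ (r + 1)) * ((r : ℝ) + 1) := by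
      refine h3.trans (le_of_eq ?_)
      ring
    exact le_of_mul_le_mul_right h7 h6
  have hly : 0 < l * y := by positivity
  have hq1 : 0 < (1 / q) ^ (r + 1) := by positivity
  calc 1 / (2 ^ (r + 1) * (r.factorial : ℝ)) * (l * z + 1) * (1 / l) ^ (r + 2) *
      (((r : ℝ) + 1) * y) ^ r
      = (z / y + 1 / (l * y)) * ((((r : ℝ) + 1) ^ r * y ^ (r + 1)) /
          (2 ^ (r + 1) * (r.factorial : ℝ) * l ^ (r + 1))) := by
        rw [one_div_pow, mul_pow]
        have e1 : l ^ (r + 2) = l ^ (r + 1) * l := pow_succ _ _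
        have e2 : y ^ (r + 1) = y ^ r * y := pow_succ _ _
        rw [e1, e2]
        field_simp
    _ ≤ (z / y + 1 / (l * y)) * (1 / q) ^ (r + 1) := by
        refine mul_le_mul_of_nonneg_left ?_ (by positivity)
        rw [div_le_iff₀ (by positivity)]
        calc ((r : ℝ) + 1) ^ r * y ^ (r + 1)
            ≤ ((r.factorial : ℝ) * Real.exp 1 ^ (r + 1)) * y ^ (r + 1) :=
              mul_le_mul_of_nonneg_right h5 (by positivity)
          _ = (1 / q) ^ (r + 1) * (2 ^ (r + 1) * (r.factorial : ℝ) *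
                (q * (Real.exp 1 * y / 2)) ^ (r + 1)) := by
              rw [mul_pow q, div_pow (Real.exp 1 * y), mul_pow (Real.exp 1), one_div_pow]
              field_simp
          _ ≤ _ := mul_le_mul_of_nonneg_left (mul_le_mul_of_nonneg_left h2 (by positivity)) hq1.le

/-- the inequality between functions of `l = ln t` -/
lemma calc_bound {l : ℝ} (hl : 2.19 ≤ l) :
    Real.exp (4 / 9 * (1 / l)) * (l + Real.log l + 3.42) ≤ l + Real.log l + 5 := by
  have l0 : 0 < l := by linarith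
  set v : ℝ := 1 / l with hv
  have v0 : 0 < v := by positivity
  have v1 : v ≤ 0.4567 := by
    rw [hv, div_le_iff₀ l0]
    linarith
  set u : ℝ := 4 / 9 * v with hu
  have u0 : 0 < u := by positivity
  have u1 : u ≤ 0.203 := by
    rw [hu]
    linarith
  have hexp : Real.exp u ≤ 1 + u + u ^ 2 / 2 + 2 / 9 * u ^ 3 := by
    have h := Real.exp_bound' (x := u) u0.le (by linarith) (n := 3) (by norm_num)
    have e : ∑ m ∈ Finset.range 3, u ^ m / (m.factorial : ℝ) = 1 + u + u ^ 2 / 2 := by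
      simp [Finset.sum_range_succ, Nat.factorial]
    rw [e] at h
    norm_num [Nat.factorial] at h
    linarith
  have hlog : Real.log l ≤ 0.368 * l := by
    have h1 := Real.log_le_sub_one_of_pos (show 0 < l / Real.exp 1 by positivity)
    rw [Real.log_div l0.ne' (Real.exp_pos 1).ne', Real.log_exp] at h1
    have h2 : l / Real.exp 1 ≤ 0.368 * l := by
      rw [div_le_iff₀ (Real.exp_pos 1)]
      have := Real.exp_one_gt_d9
      nlinarith
    linarith
  have hlog0 : 0 ≤ Real.log l := Real.log_nonneg (by linarith)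
  have hvl : v * l = 1 := by
    rw [hv]
    field_simp
  have h1 : Real.exp u - 1 ≤ 1.111 * u := by
    have : u ^ 2 / 2 + 2 / 9 * u ^ 3 ≤ 0.111 * u := by
      have e : u ^ 2 / 2 + 2 / 9 * u ^ 3 = u * (u / 2 + 2 / 9 * u ^ 2) := by ring
      rw [e]
      have : u / 2 + 2 / 9 * u ^ 2 ≤ 0.111 := by nlinarith
      nlinarith
    linarith
  have h2 : v * (l + Real.log l + 3.42) ≤ 2.93 := by
    have : v * Real.log l ≤ 0.368 := by
      calc v * Real.log l ≤ v * (0.368 * l) := mul_le_mul_of_nonneg_left hlog v0.le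
        _ = 0.368 * (v * l) := by ring
        _ = 0.368 := by rw [hvl, mul_one]
    nlinarith
  have h3 : (Real.exp u - 1) * (l + Real.log l + 3.42) ≤ 1.111 * (4 / 9) * 2.93 := by
    calc (Real.exp u - 1) * (l + Real.log l + 3.42) ≤ 1.111 * u * (l + Real.log l + 3.42) :=
          mul_le_mul_of_nonneg_right h1 (by linarith)
      _ = 1.111 * (4 / 9) * (v * (l + Real.log l + 3.42)) := by rw [hu]; ring
      _ ≤ _ := by linarith
  nlinarith

/-- the bound for large odd uniformities -/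
theorem asym {r : ℕ} (hr : 3 ≤ r) {L : ℝ}
    (hL : ∀ k : ℕ, 2 * r + 3 ≤ k → L ≤ ((k : ℝ) - 1) ^ (2 * r + 2) *
      Pool.Agent.H688R3.TuranGen.t (2 * r + 3) k) :
    L ≤ ((2 * r + 3).factorial : ℝ) *
      (Real.log (2 * (r : ℝ) + 3) + Real.log (Real.log (2 * (r : ℝ) + 3)) + 5) := by
  have r3 : (3 : ℝ) ≤ r := by exact_mod_cast hr
  set t : ℝ := 2 * (r : ℝ) + 3 with ht
  have t9 : (9 : ℝ) ≤ t := by linarith
  have t0 : 0 < t := by linarith
  set l : ℝ := Real.log t with hldef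
  have hl : 2.19 ≤ l := by
    have h1 : Real.log 9 ≤ l := Real.log_le_log (by norm_num) t9
    have h2 : Real.log 9 = 2 * Real.log 3 := by
      rw [show (9 : ℝ) = 3 ^ 2 by norm_num, Real.log_pow]
      norm_num
    have h3 := Real.log_three_gt_d9
    linarith
  have l0 : 0 < l := by linarith
  set y : ℝ := 3 * (t * l) with hy
  have y1 : 59.13 ≤ y := by
    rw [hy]
    nlinarith
  have y0 : 0 < y := by linarith
  set z : ℝ := 9 * (t * l) with hz
  have hzy : z = 3 * y := by rw [hz, hy]; ring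
  have z0 : 0 < z := by linarith
  have he := Real.exp_one_gt_d9
  set n : ℕ := ⌈3 / 2 * (Real.exp 1 * y / 2)⌉₊ with hn
  have hn1 : 3 / 2 * (Real.exp 1 * y / 2) ≤ n := Nat.le_ceil _
  have hn2 : (n : ℝ) < 3 / 2 * (Real.exp 1 * y / 2) + 1 := Nat.ceil_lt_add_one (by positivity)
  have hn30 : (100 : ℝ) ≤ n := by nlinarith
  have hn2' : 2 ≤ n := by
    have : 100 ≤ n := by exact_mod_cast hn30
    omega
  have hn0 : (0 : ℝ) < n := by linarith
  have h := greedy_bound hL (l := n) hn2' (y := y) (z := z) y0 (by linarith)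
  refine h.trans (mul_le_mul_of_nonneg_left ?_ (Nat.cast_nonneg _))
  have h3 := third (r := r) (by norm_num : (0 : ℝ) < 3 / 2) y0 z0 hn1
  have hthird : (z / y + 1 / ((n : ℝ) * y)) * (1 / (3 / 2 : ℝ)) ^ (r + 1) ≤ 0.593 := by
    have a1 : z / y = 3 := by
      rw [hzy]
      field_simp
    have a2 : 1 / ((n : ℝ) * y) ≤ 0.0002 := by
      rw [div_le_iff₀ (by positivity)]
      nlinarith
    have a3 : (1 / (3 / 2 : ℝ)) ^ (r + 1) ≤ (1 / (3 / 2 : ℝ)) ^ 4 :=
      pow_le_pow_of_le_one (by norm_num) (by norm_num) (by omega)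
    have a4 : (1 / (3 / 2 : ℝ)) ^ 4 ≤ 0.19754 := by norm_num
    have a5 : (0 : ℝ) ≤ (1 / (3 / 2 : ℝ)) ^ (r + 1) := by positivity
    calc (z / y + 1 / ((n : ℝ) * y)) * (1 / (3 / 2 : ℝ)) ^ (r + 1) ≤ 3.0002 * 0.19754 := by
          refine mul_le_mul ?_ (a3.trans a4) a5 (by norm_num)
          rw [a1]
          linarith
      _ ≤ _ := by norm_num
  have hlog : Real.log n ≤ 1 + (l + Real.log l) + 0.81094 + 0.0084 := by
    have hzz : 0 < 3 / 2 * (Real.exp 1 * y / 2) := by positivity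
    have a1 : Real.log n ≤ Real.log (3 / 2 * (Real.exp 1 * y / 2) + 1) :=
      Real.log_le_log (by linarith) hn2.le
    have a2 : Real.log (3 / 2 * (Real.exp 1 * y / 2) + 1) =
        Real.log (3 / 2 * (Real.exp 1 * y / 2)) + Real.log (1 + 4 / (3 * (Real.exp 1 * y))) := by
      rw [← Real.log_mul hzz.ne' (by positivity)]
      congr 1
      field_simp
      norm_num
    have a3 : Real.log (1 + 4 / (3 * (Real.exp 1 * y))) ≤ 4 / (3 * (Real.exp 1 * y)) := by
      have := Real.log_le_sub_one_of_pos (show 0 < 1 + 4 / (3 * (Real.exp 1 * y)) by positivity)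
      linarith
    have a4 : 4 / (3 * (Real.exp 1 * y)) ≤ 0.0084 := by
      rw [div_le_iff₀ (by positivity)]
      nlinarith
    have a5 : Real.log (3 / 2 * (Real.exp 1 * y / 2)) = 1 + (l + Real.log l) +
        (2 * Real.log 3 - 2 * Real.log 2) := by
      have e1 : 3 / 2 * (Real.exp 1 * y / 2) = Real.exp 1 * (t * l) * (3 ^ 2 / 2 ^ 2) := by
        rw [hy]
        ring
      rw [e1, Real.log_mul (by positivity) (by norm_num), Real.log_mul (by positivity)
        (by positivity), Real.log_exp, Real.log_mul (by positivity) (by positivity), ← hldef,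
        Real.log_div (by norm_num) (by norm_num), Real.log_pow, Real.log_pow]
      push_cast
      ring
    have a6 := Real.log_two_gt_d9
    have a7 := Real.log_three_lt_d9
    linarith
  have hb1 : 1 + 1 / y ≤ Real.exp (1 / y) := by
    have := Real.add_one_le_exp (1 / y)
    linarith
  have hb2 : 1 + 1 / z ≤ Real.exp (1 / z) := by
    have := Real.add_one_le_exp (1 / z)
    linarith
  have hz1 : (1 : ℝ) ≤ 1 + 1 / z := by
    have : 0 < 1 / z := by positivity
    linarith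
  have hy1 : (1 : ℝ) ≤ 1 + 1 / y := by
    have : 0 < 1 / y := by positivity
    linarith
  have hpow : (1 + 1 / y) ^ (2 * r + 2) * (1 + 1 / z) ^ (2 * r + 2) ≤
      Real.exp (4 / 9 * (1 / l)) := by
    have c1 : (1 + 1 / y) ^ (2 * r + 2) ≤ Real.exp (1 / 3 * (1 / l)) := by
      calc (1 + 1 / y) ^ (2 * r + 2) ≤ (1 + 1 / y) ^ (2 * r + 3) :=
            pow_le_pow_right₀ hy1 (by omega)
        _ ≤ Real.exp (1 / y) ^ (2 * r + 3) := pow_le_pow_left₀ (by positivity) hb1 _
        _ = Real.exp (1 / 3 * (1 / l)) := by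
            rw [← Real.exp_nat_mul]
            congr 1
            rw [hy]
            push_cast
            rw [← ht]
            field_simp
    have c2 : (1 + 1 / z) ^ (2 * r + 2) ≤ Real.exp (1 / 9 * (1 / l)) := by
      calc (1 + 1 / z) ^ (2 * r + 2) ≤ (1 + 1 / z) ^ (2 * r + 3) :=
            pow_le_pow_right₀ hz1 (by omega)
        _ ≤ Real.exp (1 / z) ^ (2 * r + 3) := pow_le_pow_left₀ (by positivity) hb2 _
        _ = Real.exp (1 / 9 * (1 / l)) := by
            rw [← Real.exp_nat_mul]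
            congr 1
            rw [hz]
            push_cast
            rw [← ht]
            field_simp
    calc (1 + 1 / y) ^ (2 * r + 2) * (1 + 1 / z) ^ (2 * r + 2) ≤
          Real.exp (1 / 3 * (1 / l)) * Real.exp (1 / 9 * (1 / l)) :=
          mul_le_mul c1 c2 (by positivity) (Real.exp_pos _).le
      _ = _ := by
          rw [← Real.exp_add]
          congr 1
          ring
  have hlog0 : 0 ≤ Real.log l := Real.log_nonneg (by linarith)
  set P : ℝ := (1 + 1 / y) ^ (2 * r + 2) with hP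
  have hP0 : 0 < P := by positivity
  set R : ℝ := (1 + 1 / z) ^ (2 * r + 2) with hR
  have hR0 : 0 < R := by positivity
  set Y : ℝ := (((r : ℝ) + 1) * y) ^ r with hY
  have hY0 : 0 ≤ Y := by positivity
  have hf : (0 : ℝ) < (r.factorial : ℝ) := by exact_mod_cast r.factorial_pos
  have hterm : 1 / (2 ^ (r + 1) * (r.factorial : ℝ)) * ((n : ℝ) * z + 1) *
      ((1 + 1 / z) / (n : ℝ)) ^ (r + 2) * Y ≤ R * 0.593 := by
    have c1 : ((1 + 1 / z) / (n : ℝ)) ^ (r + 2) ≤ R * (1 / (n : ℝ)) ^ (r + 2) := by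
      rw [div_eq_mul_one_div, mul_pow]
      exact mul_le_mul_of_nonneg_right (pow_le_pow_right₀ hz1 (by omega)) (by positivity)
    calc 1 / (2 ^ (r + 1) * (r.factorial : ℝ)) * ((n : ℝ) * z + 1) *
          ((1 + 1 / z) / (n : ℝ)) ^ (r + 2) * Y
        ≤ 1 / (2 ^ (r + 1) * (r.factorial : ℝ)) * ((n : ℝ) * z + 1) *
          (R * (1 / (n : ℝ)) ^ (r + 2)) * Y :=
          mul_le_mul_of_nonneg_right (mul_le_mul_of_nonneg_left c1 (by positivity)) hY0
      _ = R * (1 / (2 ^ (r + 1) * (r.factorial : ℝ)) * ((n : ℝ) * z + 1) *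
          (1 / (n : ℝ)) ^ (r + 2) * Y) := by ring
      _ ≤ _ := mul_le_mul_of_nonneg_left (h3.trans hthird) hR0.le
  have hsum : 1 + Real.log n + 0.593 ≤ l + Real.log l + 3.42 := by linarith
  calc P * (R * (1 + Real.log n) + 1 / (2 ^ (r + 1) * (r.factorial : ℝ)) * ((n : ℝ) * z + 1) *
      ((1 + 1 / z) / (n : ℝ)) ^ (r + 2) * Y)
      ≤ P * (R * (1 + Real.log n) + R * 0.593) :=
        mul_le_mul_of_nonneg_left (by linarith) hP0.le
    _ = (P * R) * (1 + Real.log n + 0.593) := by ring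
    _ ≤ (P * R) * (l + Real.log l + 3.42) := mul_le_mul_of_nonneg_left hsum (by positivity)
    _ ≤ Real.exp (4 / 9 * (1 / l)) * (l + Real.log l + 3.42) :=
        mul_le_mul_of_nonneg_right hpow (by linarith)
    _ ≤ _ := calc_bound hl

/-- the bound from the system of all sets -/
theorem trivial_bound {t : ℕ} (ht : 1 ≤ t) {L : ℝ}
    (hL : ∀ k : ℕ, t ≤ k → L ≤ ((k : ℝ) - 1) ^ (t - 1) *
      Pool.Agent.H688R3.TuranGen.t t k) : L ≤ ((t : ℝ) - 1) ^ (t - 1) := by
  have h1 : Pool.Agent.H688R3.TuranGen.t t t ≤ 1 := (Pool.Agent.H688R3.TuranGen.t_self t).le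
  have h2 := hL t le_rfl
  have h3 : (0 : ℝ) ≤ ((t : ℝ) - 1) ^ (t - 1) := by
    have : (1 : ℝ) ≤ t := by exact_mod_cast ht
    exact pow_nonneg (by linarith) _
  refine h2.trans ?_
  calc ((t : ℝ) - 1) ^ (t - 1) * Pool.Agent.H688R3.TuranGen.t t t ≤ ((t : ℝ) - 1) ^ (t - 1) * 1 :=
        mul_le_mul_of_nonneg_left h1 h3
    _ = _ := mul_one _

/-- `t = 7` -/
theorem seven {L : ℝ}
    (hL : ∀ k : ℕ, 2 * 2 + 3 ≤ k → L ≤ ((k : ℝ) - 1) ^ (2 * 2 + 2) *
      Pool.Agent.H688R3.TuranGen.t (2 * 2 + 3) k) : L ≤ 34050 := by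
  have h := greedy_bound (r := 2) hL (l := 64) (by norm_num) (y := 44) (z := 90) (by norm_num)
    (by norm_num)
  have h64 : Real.log ((64 : ℕ) : ℝ) ≤ 4.158884 := by
    rw [show ((64 : ℕ) : ℝ) = 2 ^ 6 by norm_num, Real.log_pow]
    have := Real.log_two_lt_d9
    push_cast
    linarith
  set w := Real.log ((64 : ℕ) : ℝ)
  norm_num [Nat.factorial] at h
  linarith

/-- `t = 9` -/
theorem nine {L : ℝ}
    (hL : ∀ k : ℕ, 2 * 3 + 3 ≤ k → L ≤ ((k : ℝ) - 1) ^ (2 * 3 + 2) *
      Pool.Agent.H688R3.TuranGen.t (2 * 3 + 3) k) : L ≤ 2540000 := by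
  have h := greedy_bound (r := 3) hL (l := 96) (by norm_num) (y := 58) (z := 175) (by norm_num)
    (by norm_num)
  have h96 : Real.log ((96 : ℕ) : ℝ) ≤ 4.564349 := by
    rw [show ((96 : ℕ) : ℝ) = 2 ^ 5 * 3 by norm_num, Real.log_mul (by norm_num) (by norm_num),
      Real.log_pow]
    have := Real.log_two_lt_d9
    have := Real.log_three_lt_d9
    push_cast
    linarith
  set w := Real.log ((96 : ℕ) : ℝ)
  norm_num [Nat.factorial] at h
  linarith

/-- all odd uniformities -/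
theorem all_odd {r : ℕ} {L : ℝ}
    (hL : ∀ k : ℕ, 2 * r + 3 ≤ k → L ≤ ((k : ℝ) - 1) ^ (2 * r + 2) *
      Pool.Agent.H688R3.TuranGen.t (2 * r + 3) k) :
    L ≤ ((2 * r + 3).factorial : ℝ) *
      (Real.log (2 * (r : ℝ) + 3) + Real.log (Real.log (2 * (r : ℝ) + 3)) + 5) := by
  by_cases h3 : 3 ≤ r
  · exact asym h3 hL
  have hr0 : (0 : ℝ) ≤ r := Nat.cast_nonneg r
  have hlog3 := Real.log_three_gt_d9
  have hone : 1 ≤ Real.log (2 * (r : ℝ) + 3) := by
    have h2 : Real.log 3 ≤ Real.log (2 * (r : ℝ) + 3) := Real.log_le_log (by norm_num) (by linarith)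
    linarith
  have hlog0 : 0 ≤ Real.log (Real.log (2 * (r : ℝ) + 3)) := Real.log_nonneg hone
  by_cases h2 : 2 ≤ r
  · obtain rfl : r = 2 := by omega
    have e1 : (1.79 : ℝ) ≤ Real.log (2 * ((2 : ℕ) : ℝ) + 3) := by
      have e2 : Real.log (2 * 3) ≤ Real.log (2 * ((2 : ℕ) : ℝ) + 3) :=
        Real.log_le_log (by norm_num) (by norm_num)
      rw [Real.log_mul (by norm_num) (by norm_num)] at e2
      have e3 := Real.log_two_gt_d9
      calc (1.79 : ℝ) ≤ Real.log 2 + Real.log 3 := by linarith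
        _ ≤ _ := e2
    have e12 : 6.79 ≤ Real.log (2 * ((2 : ℕ) : ℝ) + 3) +
        Real.log (Real.log (2 * ((2 : ℕ) : ℝ) + 3)) + 5 := by
      generalize Real.log (2 * ((2 : ℕ) : ℝ) + 3) = w at e1 hlog0 ⊢
      linarith
    have e11 : ((2 * 2 + 3).factorial : ℝ) * 6.79 ≤ ((2 * 2 + 3).factorial : ℝ) *
      (Real.log (2 * ((2 : ℕ) : ℝ) + 3) + Real.log (Real.log (2 * ((2 : ℕ) : ℝ) + 3)) + 5) :=
      mul_le_mul_of_nonneg_left e12 (Nat.cast_nonneg _)
    refine le_trans ?_ e11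
    refine (seven hL).trans ?_
    norm_num [Nat.factorial]
  · have htriv : L ≤ (((2 * r + 3 : ℕ) : ℝ) - 1) ^ (2 * r + 2) := trivial_bound (by omega) hL
    have e11 : ((2 * r + 3).factorial : ℝ) * 6 ≤ ((2 * r + 3).factorial : ℝ) *
      (Real.log (2 * (r : ℝ) + 3) + Real.log (Real.log (2 * (r : ℝ) + 3)) + 5) :=
      mul_le_mul_of_nonneg_left (by linarith) (Nat.cast_nonneg _)
    refine le_trans ?_ e11
    refine htriv.trans ?_
    obtain rfl | rfl : r = 0 ∨ r = 1 := by omega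
    · norm_num [Nat.factorial]
    · norm_num [Nat.factorial]

end Pool.Agent.H69.ColO
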