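import Pool.Agent.H69.ColO.Cover
import Pool.Agent.H69.ColE.Count

/-!
The expected number of blocks, and the resulting systems on `n` points, odd uniformities.
-/

set_option autoImplicit false
set_option linter.unusedSectionVars false

open Finset

namespace Pool.Agent.H69.ColO

open Pool.Agent.X44.TS (V add_self_V card_fib)
open Pool.Agent.H69.Col4 (Lab kap vec)
open Pool.Agent.H69.ColE (B card_B_le SP card_SP card_pre)

variable {Λ Γ : Type} [Fintype Λ] [DecidableEq Λ] [AddCommGroup Λ] [DecidableEq Γ]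
  {m j n r : ℕ} [NeZero m]

lemma card_Pos : Fintype.card (Pos r) = 2 * r + 3 := by
  rw [Fintype.card_option, Fintype.card_prod, Fintype.card_option, Fintype.card_fin,
    Fintype.card_fin]
  ring

open Classical in
/-- labels that form a block of the second type -/
noncomputable def SD (r m : ℕ) (π : Λ → Γ) (j : ℕ) : Finset (Pos r → Lab m Λ j) :=
  univ.filter fun h => (∃ w : V j, ∀ i, ((h (some (i, 0))).1, (h (some (i, 0))).2.1) =
    ((h (some (i, 1))).1, (h (some (i, 1))).2.1) ∧
      (h (some (i, 0))).2.2 + (h (some (i, 1))).2.2 = w) ∧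
    (h none).1 = (h (some (none, 0))).1 ∧ π (h none).2.1 = π (h (some (none, 0))).2.1

lemma card_SD {π : Λ → Γ} {δ : ℕ} (hδ : ∀ l : Λ, (univ.filter fun l' => π l' = π l).card ≤ δ) :
    (SD r m π j).card ≤ (Fintype.card (Lab m Λ j)) ^ (r + 1) * ((2 ^ j * 2 ^ j) * δ) := by
  classical
  set S' : Finset ((Option (Fin r) → Lab m Λ j) × ((V j × V j) × Λ)) :=
    univ.filter fun z => π z.2.2 = π (z.1 none).2.1 with hS'
  have h1 : (SD r m π j).card ≤ S'.card := by
    refine card_le_card_of_injOn (fun h => (fun i => h (some (i, 0)),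
      (((h (some (none, 0))).2.2 + (h (some (none, 1))).2.2, (h none).2.2), (h none).2.1))) ?_ ?_
    · intro h hh
      exact mem_coe.2 (mem_filter.2 ⟨mem_univ _, (mem_filter.1 (mem_coe.1 hh)).2.2.2⟩)
    · intro h hh h' hh' he
      obtain ⟨⟨w, hw⟩, hc, -⟩ := (mem_filter.1 (mem_coe.1 hh)).2
      obtain ⟨⟨w', hw'⟩, hc', -⟩ := (mem_filter.1 (mem_coe.1 hh')).2
      simp only [Prod.mk.injEq] at he
      obtain ⟨e1, ⟨e2, e3⟩, e4⟩ := he
      have hww : w = w' := by rw [← (hw none).2, ← (hw' none).2, e2]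
      have h0 : ∀ i, h (some (i, 0)) = h' (some (i, 0)) := fun i => congrFun e1 i
      funext x
      rcases x with _ | ⟨i, ε⟩
      · have g1 : (h none).1 = (h' none).1 := by rw [hc, hc', h0]
        exact Prod.ext g1 (Prod.ext e4 e3)
      · fin_cases ε
        · exact h0 i
        · show h (some (i, 1)) = h' (some (i, 1))
          have a1 := (hw i).1
          have a2 := (hw' i).1
          have b1 := (hw i).2
          have b2 := (hw' i).2
          rw [Prod.mk.injEq] at a1 a2
          have g1 : (h (some (i, 1))).1 = (h' (some (i, 1))).1 := by rw [← a1.1, ← a2.1, h0]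
          have g2 : (h (some (i, 1))).2.1 = (h' (some (i, 1))).2.1 := by
            rw [← a1.2, ← a2.2, h0]
          have g3 : (h (some (i, 1))).2.2 = (h' (some (i, 1))).2.2 := by
            rw [h0, hww, ← b2] at b1
            exact add_left_cancel b1
          exact Prod.ext g1 (Prod.ext g2 g3)
  have h2 : S'.card = ∑ x : Option (Fin r) → Lab m Λ j, ∑ _u : V j × V j,
      (univ.filter fun l' => π l' = π (x none).2.1).card := by
    rw [hS', card_filter, Fintype.sum_prod_type]
    refine sum_congr rfl fun x _ => ?_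
    rw [Fintype.sum_prod_type]
    refine sum_congr rfl fun u _ => ?_
    rw [card_filter]
  have hV : Fintype.card (V j) = 2 ^ j := by simp
  refine h1.trans ?_
  rw [h2]
  calc ∑ x : Option (Fin r) → Lab m Λ j, ∑ _u : V j × V j,
      (univ.filter fun l' => π l' = π (x none).2.1).card
      ≤ ∑ _x : Option (Fin r) → Lab m Λ j, ∑ _u : V j × V j, δ :=
        sum_le_sum fun x _ => sum_le_sum fun _ _ => hδ _
    _ = _ := by
      rw [sum_const, sum_const, card_univ, card_univ, Fintype.card_prod, hV, Fintype.card_fun,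
        Fintype.card_option, Fintype.card_fin, smul_eq_mul, smul_eq_mul]

/-- the number of arrangements of a set without multiplicities -/
lemma card_arr {Z : Finset (Fin n)} (hZ : Z.card = 2 * r + 3) :
    open Classical in (univ.filter fun b : Pos r → Fin n =>
      Function.Injective b ∧ univ.image b = Z).card ≤ (2 * r + 3).factorial := by
  classical
  have hcZ : Fintype.card Z = 2 * r + 3 := by rw [Fintype.card_coe, hZ]
  have e0 : Pos r ≃ Z := Fintype.equivOfCardEq (by rw [hcZ, card_Pos])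
  have hcard : Fintype.card (Pos r ≃ Z) = (2 * r + 3).factorial := by
    rw [Fintype.card_equiv e0, card_Pos]
  rw [← hcard, ← Fintype.card_coe]
  have hmem : ∀ b : (univ.filter fun b : Pos r → Fin n =>
      Function.Injective b ∧ univ.image b = Z : Finset (Pos r → Fin n)), ∀ i, b.1 i ∈ Z := by
    intro b i
    have := (mem_filter.1 b.2).2.2
    have h3 : b.1 i ∈ univ.image b.1 := mem_image_of_mem _ (mem_univ _)
    rw [this] at h3
    exact h3
  have hbij : ∀ b : (univ.filter fun b : Pos r → Fin n =>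
      Function.Injective b ∧ univ.image b = Z : Finset (Pos r → Fin n)),
      Function.Bijective (fun i => (⟨b.1 i, hmem b i⟩ : Z)) := by
    intro b
    have hi := (mem_filter.1 b.2).2.1
    refine (Fintype.bijective_iff_injective_and_card _).2 ⟨?_, by rw [hcZ, card_Pos]⟩
    intro x y h
    exact hi (congrArg Subtype.val h)
  refine Fintype.card_le_of_injective (fun b => Equiv.ofBijective _ (hbij b)) ?_
  intro b b' h
  apply Subtype.ext
  funext i
  have := congrArg (fun σ : Pos r ≃ Z => ((σ i : Z) : Fin n)) h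
  exact this

/-- a block of the second type has many arrangements -/
lemma many_arr {π : Λ → Γ} {f : Fin n → Lab m Λ j} {Z : Finset (Fin n)} {b0 : Pos r → Fin n}
    (hb0 : Function.Injective b0) (hZ : univ.image b0 = Z) (hG : Good π f b0) :
    open Classical in 2 ^ (r + 1) * r.factorial ≤ (univ.filter fun b : Pos r → Fin n =>
      (Function.Injective b ∧ univ.image b = Z) ∧ Good π f b).card := by
  classical
  obtain ⟨⟨w, hw⟩, hc, hπ⟩ := hG
  have hk : ∀ i (ε ε' : Fin 2), kap f (b0 (some (i, ε))) = kap f (b0 (some (i, ε'))) := by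
    intro i ε ε'
    have := (hw i).1
    fin_cases ε <;> fin_cases ε'
    · rfl
    · exact this
    · exact this.symm
    · rfl
  have hcard : 2 ^ (r + 1) * r.factorial =
      Fintype.card (Equiv.Perm (Fin r) × (Option (Fin r) → Equiv.Perm (Fin 2))) := by
    rw [Fintype.card_prod, Fintype.card_perm, Fintype.card_fun, Fintype.card_perm,
      Fintype.card_option, Fintype.card_fin, Fintype.card_fin]
    norm_num [Nat.factorial, mul_comm]
  rw [hcard, ← card_univ]
  let F : Equiv.Perm (Fin r) × (Option (Fin r) → Equiv.Perm (Fin 2)) → (Pos r → Fin n) :=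
    fun στ x => match x with
      | none => b0 none
      | some y => b0 (some (Equiv.optionCongr στ.1 y.1, στ.2 y.1 y.2))
  have hFn : ∀ στ, F στ none = b0 none := fun _ => rfl
  have hFs : ∀ στ i ε, F στ (some (i, ε)) = b0 (some (Equiv.optionCongr στ.1 i, στ.2 i ε)) :=
    fun _ _ _ => rfl
  have hinjF : ∀ στ, Function.Injective (F στ) := by
    rintro ⟨σ, τ⟩ x x' h
    rcases x with _ | ⟨i, ε⟩ <;> rcases x' with _ | ⟨i', ε'⟩
    · rfl
    · rw [hFn (σ, τ), hFs] at h
      exact absurd (hb0 h) (by simp)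
    · rw [hFn (σ, τ), hFs] at h
      exact absurd (hb0 h) (by simp)
    · rw [hFs, hFs] at h
      have h1 := hb0 h
      rw [Option.some.injEq, Prod.mk.injEq] at h1
      obtain ⟨h2, h3⟩ := h1
      have h4 : i = i' := (Equiv.optionCongr σ).injective h2
      subst h4
      have h5 : ε = ε' := (τ i).injective h3
      rw [h5]
  refine card_le_card_of_injOn F ?_ ?_
  · rintro ⟨σ, τ⟩ -
    refine mem_coe.2 (mem_filter.2 ⟨mem_univ _, ⟨hinjF _, ?_⟩, ⟨w, fun i => ⟨?_, ?_⟩⟩, ?_, ?_⟩)
    · have h1 : univ.image (F (σ, τ)) ⊆ Z := by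
        intro v hv
        obtain ⟨x, -, rfl⟩ := mem_image.1 hv
        rw [← hZ]
        rcases x with _ | ⟨i, ε⟩
        · exact mem_image_of_mem _ (mem_univ _)
        · exact mem_image_of_mem _ (mem_univ _)
      refine eq_of_subset_of_card_le h1 ?_
      rw [← hZ, card_image_of_injective _ hb0, card_image_of_injective _ (hinjF _)]
    · rw [hFs, hFs]
      exact hk _ _ _
    · rw [hFs, hFs]
      have h1 := (hw (Equiv.optionCongr σ i)).2
      have h2 : ∑ ε : Fin 2, vec f (b0 (some (Equiv.optionCongr σ i, τ i ε))) =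
          ∑ ε : Fin 2, vec f (b0 (some (Equiv.optionCongr σ i, ε))) :=
        Equiv.sum_comp (τ i) (fun ε => vec f (b0 (some (Equiv.optionCongr σ i, ε))))
      rw [Fin.sum_univ_two, Fin.sum_univ_two] at h2
      show vec f (b0 (some (Equiv.optionCongr σ i, τ i 0))) +
        vec f (b0 (some (Equiv.optionCongr σ i, τ i 1))) = w
      rw [h2, h1]
    · rw [hFn (σ, τ), hFs, hc]
      have h1 : (kap f (b0 (some (none, 0)))).1 = (kap f (b0 (some (none, τ none 0)))).1 := by
        rw [hk none 0 (τ none 0)]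
      exact h1
    · rw [hFn (σ, τ), hFs, hπ]
      have h1 : π (kap f (b0 (some (none, 0)))).2 = π (kap f (b0 (some (none, τ none 0)))).2 := by
        rw [hk none 0 (τ none 0)]
      exact h1
  · rintro ⟨σ, τ⟩ - ⟨σ', τ'⟩ - h
    have h1 : ∀ i ε, Equiv.optionCongr σ i = Equiv.optionCongr σ' i ∧ τ i ε = τ' i ε := by
      intro i ε
      have h0 := congrFun h (some (i, ε))
      rw [hFs, hFs] at h0
      have := hb0 h0
      rw [Option.some.injEq, Prod.mk.injEq] at this
      exact this
    have h2 : σ = σ' := Equiv.ext fun i => by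
      have := (h1 (some i) 0).1
      simpa using this
    have h3 : τ = τ' := funext fun i => Equiv.ext fun ε => (h1 i ε).2
    rw [h2, h3]

/-- the expected density of the blocks -/
noncomputable def dens (r N b δ m j : ℕ) : ℝ :=
  (b : ℝ) / ((N : ℝ) ^ (2 * r + 3) * (m : ℝ) ^ (2 * r + 2)) +
    ((2 * r + 3).factorial : ℝ) / (2 ^ (r + 1) * (r.factorial : ℝ)) * δ /
      (((m : ℝ) * (N : ℝ)) ^ (r + 2) * (2 ^ j) ^ r)

/-- the number of maps for which a set is a block -/
theorem card_bad [Nonempty Λ] (Q : Finset (Finset Λ)) {π : Λ → Γ} {δ : ℕ}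
    (hδ : ∀ l : Λ, (univ.filter fun l' => π l' = π l).card ≤ δ) {Z : Finset (Fin n)}
    (hZ : Z.card = 2 * r + 3) :
    open Classical in ((univ.filter fun f : Fin n → Lab m Λ j => Bad r π Q f Z).card : ℝ) ≤
      dens r (Fintype.card Λ) (B (2 * r + 3) Q).card δ m j *
        (Fintype.card (Lab m Λ j) : ℝ) ^ n := by
  classical
  set N := Fintype.card Λ with hN
  have hN0 : 0 < N := Fintype.card_pos
  have hm0 : 0 < m := Nat.pos_of_ne_zero (NeZero.ne m)
  have hT : Fintype.card (Lab m Λ j) = m * (N * 2 ^ j) := by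
    rw [Fintype.card_prod, Fintype.card_prod, Fintype.card_fin]
    simp [hN]
  set T := Fintype.card (Lab m Λ j) with hTdef
  have hT0 : 0 < T := by rw [hT]; positivity
  set E1 := univ.filter fun f : Fin n → Lab m Λ j =>
    (∃ c, ∀ v ∈ Z, (f v).1 = c) ∧ Z.image (fun v => (f v).2.1) ∈ Q with hE1
  set E2 := univ.filter fun f : Fin n → Lab m Λ j =>
    ∃ b : Pos r → Fin n, Function.Injective b ∧ univ.image b = Z ∧ Good π f b with hE2
  have h1 : E1.card * T ^ (2 * r + 3) ≤
      m * ((B (2 * r + 3) Q).card * (2 ^ j) ^ (2 * r + 3)) * T ^ n := by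
    let g : Fin (2 * r + 3) → Fin n := fun i => Z.orderEmbOfFin hZ i
    have hg : Function.Injective g := fun a b h => (Z.orderEmbOfFin hZ).injective h
    have hgZ : univ.image g = Z := by
      have := Z.image_orderEmbOfFin_univ hZ
      exact this
    have hsub : E1 ⊆ univ.filter fun f : Fin n → Lab m Λ j =>
        (fun i => f (g i)) ∈ SP (2 * r + 3) m j Q := by
      intro f hf
      obtain ⟨⟨c, hc⟩, hQ⟩ := (mem_filter.1 hf).2
      refine mem_filter.2 ⟨mem_univ _, mem_filter.2 ⟨mem_univ _, ⟨c, fun i => hc _ ?_⟩, ?_⟩⟩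
      · rw [← hgZ]
        exact mem_image_of_mem _ (mem_univ _)
      · rw [← hgZ, image_image] at hQ
        exact hQ
    have h2 := card_pre (m := m) (Λ := Λ) (j := j) hg (SP (2 * r + 3) m j Q)
    rw [Fintype.card_fin] at h2
    calc E1.card * T ^ (2 * r + 3) ≤ (univ.filter fun f : Fin n → Lab m Λ j =>
          (fun i => f (g i)) ∈ SP (2 * r + 3) m j Q).card * T ^ (2 * r + 3) :=
          Nat.mul_le_mul_right _ (card_le_card hsub)
      _ = (SP (2 * r + 3) m j Q).card * T ^ n := h2
      _ ≤ _ := Nat.mul_le_mul_right _ (card_SP (by omega) Q)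
  have h2 : E2.card * (2 ^ (r + 1) * r.factorial) * T ^ (2 * r + 3) ≤
      (2 * r + 3).factorial * (T ^ (r + 1) * ((2 ^ j * 2 ^ j) * δ) * T ^ n) := by
    have ha : E2.card * (2 ^ (r + 1) * r.factorial) ≤ ∑ f : Fin n → Lab m Λ j,
        (univ.filter fun b : Pos r → Fin n =>
          (Function.Injective b ∧ univ.image b = Z) ∧ Good π f b).card := by
      rw [← smul_eq_mul, ← sum_const]
      refine le_trans (sum_le_sum fun f hf => ?_) (sum_le_sum_of_subset (subset_univ E2))
      obtain ⟨b0, hb0, hbZ, hG⟩ := (mem_filter.1 hf).2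
      exact many_arr hb0 hbZ hG
    have hb : ∑ f : Fin n → Lab m Λ j, (univ.filter fun b : Pos r → Fin n =>
          (Function.Injective b ∧ univ.image b = Z) ∧ Good π f b).card =
        ∑ b ∈ univ.filter (fun b : Pos r → Fin n =>
          Function.Injective b ∧ univ.image b = Z),
          (univ.filter fun f : Fin n → Lab m Λ j => Good π f b).card := by
      simp only [card_filter]
      rw [sum_comm, sum_filter]
      refine sum_congr rfl fun b _ => ?_
      by_cases hb : Function.Injective b ∧ univ.image b = Z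
      · simp [hb]
      · simp [hb]
    have hc : ∀ b ∈ univ.filter (fun b : Pos r → Fin n =>
          Function.Injective b ∧ univ.image b = Z),
        (univ.filter fun f : Fin n → Lab m Λ j => Good π f b).card * T ^ (2 * r + 3) ≤
          T ^ (r + 1) * ((2 ^ j * 2 ^ j) * δ) * T ^ n := by
      intro b hb
      have hbi := (mem_filter.1 hb).2.1
      have h3 := card_pre (m := m) (Λ := Λ) (j := j) hbi (SD r m π j)
      rw [card_Pos] at h3
      have hsub : (univ.filter fun f : Fin n → Lab m Λ j => Good π f b) ⊆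
          univ.filter fun f : Fin n → Lab m Λ j => (fun i => f (b i)) ∈ SD r m π j := by
        intro f hf
        obtain ⟨⟨w, hw⟩, h5, h6⟩ := (mem_filter.1 hf).2
        exact mem_filter.2 ⟨mem_univ _, mem_filter.2 ⟨mem_univ _, ⟨w, fun i => hw i⟩, h5, h6⟩⟩
      calc (univ.filter fun f : Fin n → Lab m Λ j => Good π f b).card * T ^ (2 * r + 3)
          ≤ _ := Nat.mul_le_mul_right _ (card_le_card hsub)
        _ = (SD r m π j).card * T ^ n := by convert h3
        _ ≤ _ := Nat.mul_le_mul_right _ (card_SD hδ)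
    calc E2.card * (2 ^ (r + 1) * r.factorial) * T ^ (2 * r + 3)
        ≤ (∑ b ∈ univ.filter (fun b : Pos r → Fin n =>
          Function.Injective b ∧ univ.image b = Z),
          (univ.filter fun f : Fin n → Lab m Λ j => Good π f b).card) * T ^ (2 * r + 3) :=
          Nat.mul_le_mul_right _ (ha.trans (le_of_eq hb))
      _ = ∑ b ∈ univ.filter (fun b : Pos r → Fin n =>
          Function.Injective b ∧ univ.image b = Z),
          (univ.filter fun f : Fin n → Lab m Λ j => Good π f b).card * T ^ (2 * r + 3) :=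
          sum_mul _ _ _
      _ ≤ ∑ _b ∈ univ.filter (fun b : Pos r → Fin n =>
          Function.Injective b ∧ univ.image b = Z),
            T ^ (r + 1) * ((2 ^ j * 2 ^ j) * δ) * T ^ n := sum_le_sum hc
      _ = _ := by rw [sum_const, smul_eq_mul]
      _ ≤ _ := Nat.mul_le_mul_right _ (card_arr hZ)
  have hsub : (univ.filter fun f : Fin n → Lab m Λ j => Bad r π Q f Z) ⊆ E1 ∪ E2 := by
    intro f hf
    rcases (mem_filter.1 hf).2 with h | h
    · exact mem_union_left _ (mem_filter.2 ⟨mem_univ _, h⟩)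
    · exact mem_union_right _ (mem_filter.2 ⟨mem_univ _, h⟩)
  have hle : ((univ.filter fun f : Fin n → Lab m Λ j => Bad r π Q f Z).card : ℝ) ≤
      (E1.card : ℝ) + E2.card := by
    exact_mod_cast (card_le_card hsub).trans (card_union_le _ _)
  refine hle.trans ?_
  have hT' : (0 : ℝ) < T := by exact_mod_cast hT0
  have hm' : (0 : ℝ) < m := by exact_mod_cast hm0
  have hN' : (0 : ℝ) < N := by exact_mod_cast hN0
  have hcast : (T : ℝ) = (m : ℝ) * ((N : ℝ) * 2 ^ j) := by
    rw [hT]; push_cast; ring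
  have h1' : (E1.card : ℝ) * (T : ℝ) ^ (2 * r + 3) ≤
      (m : ℝ) * ((B (2 * r + 3) Q).card * (2 ^ j) ^ (2 * r + 3)) * (T : ℝ) ^ n := by
    exact_mod_cast h1
  have h2' : (E2.card : ℝ) * (2 ^ (r + 1) * (r.factorial : ℝ)) * (T : ℝ) ^ (2 * r + 3) ≤
      ((2 * r + 3).factorial : ℝ) * ((T : ℝ) ^ (r + 1) * ((2 ^ j * 2 ^ j) * δ) * (T : ℝ) ^ n) := by
    exact_mod_cast h2
  unfold dens
  rw [add_mul]
  refine add_le_add ?_ ?_
  · rw [← le_div_iff₀ (by positivity)] at h1'
    refine h1'.trans (le_of_eq ?_)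
    have e3 : (T : ℝ) ^ (2 * r + 3) = ((m : ℝ) * (m : ℝ) ^ (2 * r + 2)) *
        ((N : ℝ) ^ (2 * r + 3) * (2 ^ j) ^ (2 * r + 3)) := by
      rw [hcast, mul_pow, mul_pow, ← pow_succ']
    rw [e3]
    field_simp
  · have hf : (0 : ℝ) < (r.factorial : ℝ) := by exact_mod_cast r.factorial_pos
    rw [mul_assoc, ← le_div_iff₀ (by positivity)] at h2'
    refine h2'.trans (le_of_eq ?_)
    have e1 : (T : ℝ) ^ (2 * r + 3) =
        (T : ℝ) ^ (r + 1) * (((m : ℝ) * N) ^ (r + 2) * ((2 ^ j) ^ r * (2 ^ j * 2 ^ j))) := by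
      have : 2 * r + 3 = (r + 1) + (r + 2) := by ring
      rw [this, pow_add]
      congr 1
      rw [hcast, ← mul_assoc, mul_pow]
      ring
    rw [e1]
    field_simp

/-- the systems on `n` points -/
theorem main [Nonempty Λ] {Q : Finset (Finset Λ)} {π : Λ → Γ} {a a' δ : ℕ}
    (hcov : ∀ X : Finset Λ, X.card = a + 1 → ∃ e ∈ Q, e ⊆ X)
    (hlone : ∀ X : Finset Λ, X.card ≤ a → X.card + (lone π X).card ≤ a')
    (hQ : ∀ e ∈ Q, e.card = 2 * r + 3)
    (hδ : ∀ l : Λ, (univ.filter fun l' => π l' = π l).card ≤ δ) (m j : ℕ) [NeZero m] (σ : ℕ)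
    (hσ : 2 * r + 3 + σ = a' * m + (r + 1) * (2 ^ j + 1) + 1) :
    Pool.Agent.H613T.TD σ (2 * r + 3)
      (dens r (Fintype.card Λ) (B (2 * r + 3) Q).card δ m j) := by
  classical
  intro n
  set F : (Fin n → Lab m Λ j) → Finset (Finset (Fin n)) := fun f =>
    (powersetCard (2 * r + 3) univ).filter fun Z => Bad r π Q f Z with hF
  have hsum : ∑ f, ((F f).card : ℝ) ≤ (n.choose (2 * r + 3) : ℝ) *
      (dens r (Fintype.card Λ) (B (2 * r + 3) Q).card δ m j *
        (Fintype.card (Lab m Λ j) : ℝ) ^ n) := by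
    have h1 : ∑ f, ((F f).card : ℝ) = ∑ Z ∈ powersetCard (2 * r + 3) (univ : Finset (Fin n)),
        ((univ.filter fun f : Fin n → Lab m Λ j => Bad r π Q f Z).card : ℝ) := by
      simp only [hF, card_filter]
      push_cast
      rw [sum_comm]
    rw [h1]
    calc ∑ Z ∈ powersetCard (2 * r + 3) (univ : Finset (Fin n)),
          ((univ.filter fun f : Fin n → Lab m Λ j => Bad r π Q f Z).card : ℝ)
        ≤ ∑ _Z ∈ powersetCard (2 * r + 3) (univ : Finset (Fin n)),
          (dens r (Fintype.card Λ) (B (2 * r + 3) Q).card δ m j *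
            (Fintype.card (Lab m Λ j) : ℝ) ^ n) :=
          sum_le_sum fun Z hZ => card_bad Q hδ (mem_powersetCard.1 hZ).2
      _ = _ := by rw [sum_const, card_powersetCard, card_univ, Fintype.card_fin, nsmul_eq_mul]
  obtain ⟨f, -, hf⟩ : ∃ f ∈ (univ : Finset (Fin n → Lab m Λ j)), ((F f).card : ℝ) ≤
      (n.choose (2 * r + 3) : ℝ) *
        dens r (Fintype.card Λ) (B (2 * r + 3) Q).card δ m j := by
    refine exists_le_of_sum_le (univ_nonempty) ?_
    rw [sum_const, card_univ, nsmul_eq_mul, Fintype.card_fun, Fintype.card_fin]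
    refine hsum.trans (le_of_eq ?_)
    push_cast
    ring
  refine ⟨F f, ⟨fun Z hZ => ⟨subset_univ _, (mem_powersetCard.1 (mem_filter.1 hZ).1).2⟩,
    fun Y _ hY => ?_⟩, ?_⟩
  · obtain ⟨Z, hZY, hZc, hZb⟩ := cover π hcov hlone hQ f (Y := Y) (by omega)
    exact ⟨Z, mem_filter.2 ⟨mem_powersetCard.2 ⟨subset_univ _, hZc⟩, hZb⟩, hZY⟩
  · rw [mul_comm]
    exact hf

end Pool.Agent.H69.ColO
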