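import Pool.Agent.H69.ColE.Cover

/-!
Systems of `(2 r + 3)`-sets with coloured repetitions.  The blocks are the `(2 r + 3)`-sets inside one
component whose labels form a member of the base system, and the sets that consist of `r + 1` disjoint
pairs, each inside one class (component and label), all the pairs having the same sum of vectors, and of
one more vertex, which is in the component of the first pair and has a label of the same group as the
label of the first pair.
-/

set_option autoImplicit false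
set_option linter.unusedSectionVars false

open Finset

namespace Pool.Agent.H69.ColO

open Pool.Agent.X44.TS (V add_self_V card_fib)
open Pool.Agent.H69.Col4 (Lab kap vec)
open Pool.Agent.H69.ColE (Disj exists_clones)

variable {Λ Γ : Type} [Fintype Λ] [DecidableEq Λ] {m j n r : ℕ}

/-- the positions in a block -/
abbrev Pos (r : ℕ) : Type := Option (Option (Fin r) × Fin 2)

/-- `r + 1` pairs of vertices, each inside one class, with the same sum of vectors, and a vertex that
is related to the first pair -/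
def Good (π : Λ → Γ) (f : Fin n → Lab m Λ j) (b : Pos r → Fin n) : Prop :=
  (∃ w : V j, ∀ i, kap f (b (some (i, 0))) = kap f (b (some (i, 1))) ∧
    vec f (b (some (i, 0))) + vec f (b (some (i, 1))) = w) ∧
  (f (b none)).1 = (f (b (some (none, 0)))).1 ∧ π (f (b none)).2.1 = π (f (b (some (none, 0)))).2.1

/-- the blocks -/
def Bad (r : ℕ) (π : Λ → Γ) (Q : Finset (Finset Λ)) (f : Fin n → Lab m Λ j) (Z : Finset (Fin n)) :
    Prop :=
  ((∃ c, ∀ v ∈ Z, (f v).1 = c) ∧ Z.image (fun v => (f v).2.1) ∈ Q) ∨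
  (∃ b : Pos r → Fin n, Function.Injective b ∧ univ.image b = Z ∧ Good π f b)

lemma exists_block {π : Λ → Γ} {C : Finset (Fin n × Fin n)} (hC : Disj C) (hs : r + 2 ≤ C.card)
    {Y : Finset (Fin n)} {f : Fin n → Lab m Λ j} (hY : ∀ p ∈ C, p.1 ∈ Y ∧ p.2 ∈ Y) {w : V j}
    (hw : ∀ p ∈ C, kap f p.1 = kap f p.2 ∧ vec f p.1 + vec f p.2 = w)
    (hwit : ∀ p ∈ C, ∃ v ∈ Y, v ≠ p.1 ∧ v ≠ p.2 ∧ (f v).1 = (f p.1).1 ∧
      π (f v).2.1 = π (f p.1).2.1) :
    ∃ Z ⊆ Y, Z.card = 2 * r + 3 ∧ ∃ b : Pos r → Fin n,
      Function.Injective b ∧ univ.image b = Z ∧ Good π f b := by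
  classical
  obtain ⟨p, hp⟩ : C.Nonempty := card_pos.1 (by omega)
  obtain ⟨v, hvY, hv1, hv2, hvc, hvπ⟩ := hwit p hp
  -- the pairs without `v`
  set C1 := C.filter fun q => q.1 ≠ v ∧ q.2 ≠ v with hC1
  have hpC1 : p ∈ C1 := mem_filter.2 ⟨hp, hv1.symm, hv2.symm⟩
  have hcard : r + 1 ≤ C1.card := by
    have h1 := card_filter_add_card_filter_not (s := C) (fun q => q.1 ≠ v ∧ q.2 ≠ v)
    have h2 : (C.filter fun q => ¬ (q.1 ≠ v ∧ q.2 ≠ v)).card ≤ 1 := by
      rw [card_le_one]
      intro q hq q' hq'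
      obtain ⟨hqC, hq⟩ := mem_filter.1 hq
      obtain ⟨hqC', hq'⟩ := mem_filter.1 hq'
      have a1 : q.1 = v ∨ q.2 = v := by tauto
      have a2 : q'.1 = v ∨ q'.2 = v := by tauto
      rcases a1 with a1 | a1 <;> rcases a2 with a2 | a2
      · exact hC.fst _ hqC _ hqC' (a1.trans a2.symm)
      · exact absurd (a1.trans a2.symm) (hC.ne _ hqC _ hqC')
      · exact absurd (a2.trans a1.symm) (hC.ne _ hqC' _ hqC)
      · exact hC.snd _ hqC _ hqC' (a1.trans a2.symm)
    rw [← hC1] at h1
    omega
  obtain ⟨C2, hpC2, hC2, hC2c⟩ := exists_subsuperset_card_eq (singleton_subset_iff.2 hpC1)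
    (by rw [card_singleton]; omega) hcard
  rw [singleton_subset_iff] at hpC2
  have hcO : Fintype.card (Option (Fin r)) = C2.card := by
    rw [Fintype.card_option, Fintype.card_fin, hC2c]
  let e' : Option (Fin r) ≃ C2 := (Fintype.equivOfCardEq (by rw [hcO, Fintype.card_coe]))
  let e : Option (Fin r) ≃ C2 := (Equiv.swap none (e'.symm ⟨p, hpC2⟩)).trans e'
  have he0 : e none = ⟨p, hpC2⟩ := by
    show e' (Equiv.swap none (e'.symm ⟨p, hpC2⟩) none) = _
    rw [Equiv.swap_apply_left, Equiv.apply_symm_apply]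
  have heC1 : ∀ i, (e i : Fin n × Fin n) ∈ C1 := fun i => hC2 (e i).2
  have he : ∀ i, (e i : Fin n × Fin n) ∈ C := fun i => (mem_filter.1 (heC1 i)).1
  have hev : ∀ i, (e i : Fin n × Fin n).1 ≠ v ∧ (e i : Fin n × Fin n).2 ≠ v := fun i =>
    (mem_filter.1 (heC1 i)).2
  let b : Pos r → Fin n := fun x => match x with
    | none => v
    | some y => if y.2 = 0 then (e y.1 : Fin n × Fin n).1 else (e y.1 : Fin n × Fin n).2
  have hb0 : ∀ i, b (some (i, 0)) = (e i : Fin n × Fin n).1 := fun i => by simp [b]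
  have hb1 : ∀ i, b (some (i, 1)) = (e i : Fin n × Fin n).2 := fun i => by simp [b]
  have hbn : b none = v := rfl
  have hinj : Function.Injective b := by
    intro x x' h
    rcases x with _ | ⟨i, ε⟩ <;> rcases x' with _ | ⟨i', ε'⟩
    · rfl
    · exfalso
      rw [hbn] at h
      fin_cases ε'
      · exact (hev i').1 (by rw [← hb0]; exact h.symm)
      · exact (hev i').2 (by rw [← hb1]; exact h.symm)
    · exfalso
      rw [hbn] at h
      fin_cases ε
      · exact (hev i).1 (by rw [← hb0]; exact h)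
      · exact (hev i).2 (by rw [← hb1]; exact h)
    · fin_cases ε <;> fin_cases ε'
      · have h' : (e i : Fin n × Fin n).1 = (e i' : Fin n × Fin n).1 := by
          rw [← hb0, ← hb0]; exact h
        have := e.injective (Subtype.ext (hC.fst _ (he i) _ (he i') h'))
        rw [this]
      · exact absurd (show (e i : Fin n × Fin n).1 = (e i' : Fin n × Fin n).2 by
          rw [← hb0, ← hb1]; exact h) (hC.ne _ (he i) _ (he i'))
      · exact absurd (show (e i' : Fin n × Fin n).1 = (e i : Fin n × Fin n).2 by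
          rw [← hb0, ← hb1]; exact h.symm) (hC.ne _ (he i') _ (he i))
      · have h' : (e i : Fin n × Fin n).2 = (e i' : Fin n × Fin n).2 := by
          rw [← hb1, ← hb1]; exact h
        have := e.injective (Subtype.ext (hC.snd _ (he i) _ (he i') h'))
        rw [this]
  refine ⟨univ.image b, ?_, ?_, b, hinj, rfl, ⟨w, fun i => ?_⟩, ?_, ?_⟩
  · intro x hx
    obtain ⟨y, -, rfl⟩ := mem_image.1 hx
    rcases y with _ | ⟨i, ε⟩
    · exact hvY
    · fin_cases ε
      · show b (some (i, 0)) ∈ Y
        rw [hb0]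
        exact (hY _ (he i)).1
      · show b (some (i, 1)) ∈ Y
        rw [hb1]
        exact (hY _ (he i)).2
  · rw [card_image_of_injective _ hinj, card_univ, Fintype.card_option, Fintype.card_prod,
      Fintype.card_option, Fintype.card_fin, Fintype.card_fin]
    ring
  · rw [hb0, hb1]
    exact hw _ (he i)
  · rw [hb0, he0]
    exact hvc
  · rw [hb0, he0]
    exact hvπ

/-- the labels that are alone in their group -/
noncomputable def lone [DecidableEq Γ] (π : Λ → Γ) (X : Finset Λ) : Finset Λ :=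
  X.filter fun l => ∀ l' ∈ X, π l' = π l → l' = l

/-- the covering property -/
theorem cover [DecidableEq Γ] (π : Λ → Γ) {Q : Finset (Finset Λ)} {a a' : ℕ}
    (hcov : ∀ X : Finset Λ, X.card = a + 1 → ∃ e ∈ Q, e ⊆ X)
    (hlone : ∀ X : Finset Λ, X.card ≤ a → X.card + (lone π X).card ≤ a')
    (hQ : ∀ e ∈ Q, e.card = 2 * r + 3) (f : Fin n → Lab m Λ j) {Y : Finset (Fin n)}
    (hY : Y.card = a' * m + (r + 1) * (2 ^ j + 1) + 1) :
    ∃ Z ⊆ Y, Z.card = 2 * r + 3 ∧ Bad r π Q f Z := by
  classical
  by_contra hcon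
  push Not at hcon
  -- the labels in a component
  set X : Fin m → Finset Λ := fun c => univ.filter fun l => (c, l) ∈ Y.image (kap f) with hX
  have hmemX : ∀ c l, l ∈ X c ↔ (c, l) ∈ Y.image (kap f) := fun c l => by simp [hX]
  have hXc : ∀ c, (X c).card ≤ a := by
    intro c
    by_contra hlt
    obtain ⟨X', hX', hXc'⟩ := exists_subset_card_eq (show a + 1 ≤ (X c).card by omega)
    obtain ⟨e, he, heX⟩ := hcov X' hXc'
    have hYne : Y.Nonempty := card_pos.1 (by omega)
    have hg : ∀ l : Λ, ∃ v : Fin n, l ∈ e → v ∈ Y ∧ kap f v = (c, l) := by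
      intro l
      by_cases hl : l ∈ e
      · obtain ⟨v, hv, hvk⟩ := mem_image.1 ((hmemX c l).1 (hX' (heX hl)))
        exact ⟨v, fun _ => ⟨hv, hvk⟩⟩
      · exact ⟨hYne.choose, fun h => absurd h hl⟩
    choose g hg using hg
    have hginj : Set.InjOn g e := by
      intro l hl l' hl' h
      have h1 := (hg l hl).2
      have h2 := (hg l' hl').2
      rw [h, h2] at h1
      exact (Prod.mk.inj h1).2.symm
    refine hcon (e.image g) ?_ (by rw [card_image_of_injOn hginj, hQ e he]) (Or.inl ⟨⟨c, ?_⟩, ?_⟩)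
    · intro v hv
      obtain ⟨l, hl, rfl⟩ := mem_image.1 hv
      exact (hg l hl).1
    · intro v hv
      obtain ⟨l, hl, rfl⟩ := mem_image.1 hv
      exact congrArg Prod.fst (hg l hl).2
    · have : (e.image g).image (fun v => (f v).2.1) = e := by
        ext l
        rw [image_image, mem_image]
        constructor
        · rintro ⟨l', hl', rfl⟩
          have := congrArg Prod.snd (hg l' hl').2
          simp only [kap] at this
          simp only [Function.comp]
          rw [this]
          exact hl'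
        · intro hl
          exact ⟨l, hl, congrArg Prod.snd (hg l hl).2⟩
      rw [this]
      exact he
  -- the classes that are left out
  set U : Finset (Fin m × Λ) := univ.filter fun κ => κ.2 ∈ lone π (X κ.1) ∧
    (Y.filter fun v => kap f v = κ).card = 2 with hU
  have hUc : U.card ≤ ∑ c : Fin m, (lone π (X c)).card := by
    have h1 : U ⊆ (univ : Finset (Fin m)).biUnion fun c => (lone π (X c)).image fun l => (c, l) := by
      rintro ⟨c, l⟩ h
      exact mem_biUnion.2 ⟨c, mem_univ _, mem_image.2 ⟨l, (mem_filter.1 h).2.1, rfl⟩⟩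
    exact (card_le_card h1).trans (card_biUnion_le.trans (sum_le_sum fun c _ => card_image_le))
  have hh : ∀ κ : Fin m × Λ, ∃ v : Fin n, κ ∈ U → v ∈ Y ∧ kap f v = κ := by
    intro κ
    by_cases hκ : κ ∈ U
    · have h2 := (mem_filter.1 hκ).2.2
      obtain ⟨v, hv⟩ : (Y.filter fun v => kap f v = κ).Nonempty := card_pos.1 (by omega)
      exact ⟨v, fun _ => mem_filter.1 hv⟩
    · have : Y.Nonempty := card_pos.1 (by omega)
      exact ⟨this.choose, fun h => absurd h hκ⟩
  choose h hh using hh
  set Y' := Y \ U.image h with hY'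
  have hY'Y : Y' ⊆ Y := sdiff_subset
  have hYY' : Y.card ≤ Y'.card + U.card := by
    have h1 := card_sdiff_add_card_inter Y (U.image h)
    rw [← hY'] at h1
    have h2 : (Y ∩ U.image h).card ≤ U.card := (card_le_card inter_subset_right).trans card_image_le
    omega
  -- witnesses
  have hwit : ∀ x ∈ Y', ∀ y ∈ Y', x ≠ y → kap f x = kap f y → ∃ v ∈ Y, v ≠ x ∧ v ≠ y ∧
      (f v).1 = (f x).1 ∧ π (f v).2.1 = π (f x).2.1 := by
    intro x hx y hy hxy hk
    set Cl := Y.filter fun v => kap f v = kap f x with hCl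
    have hxCl : x ∈ Cl := mem_filter.2 ⟨hY'Y hx, rfl⟩
    have hyCl : y ∈ Cl := mem_filter.2 ⟨hY'Y hy, hk.symm⟩
    have hsub : ({x, y} : Finset (Fin n)) ⊆ Cl := by
      intro v hv
      rcases mem_insert.1 hv with rfl | hv
      · exact hxCl
      · rw [mem_singleton.1 hv]; exact hyCl
    have h2 : 2 ≤ Cl.card := by
      have := card_le_card hsub
      rwa [card_pair hxy] at this
    by_cases h3 : Cl.card = 2
    · have hCle : ({x, y} : Finset (Fin n)) = Cl := eq_of_subset_of_card_le hsub (by
        rw [card_pair hxy, h3])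
      have hnotU : kap f x ∉ U := by
        intro hκ
        obtain ⟨h4, h5⟩ := hh _ hκ
        have h6 : h (kap f x) ∈ Cl := mem_filter.2 ⟨h4, h5⟩
        have h7 : h (kap f x) ∈ U.image h := mem_image_of_mem _ hκ
        rw [← hCle] at h6
        rcases mem_insert.1 h6 with h6 | h6
        · rw [h6] at h7
          exact (mem_sdiff.1 hx).2 h7
        · rw [mem_singleton.1 h6] at h7
          exact (mem_sdiff.1 hy).2 h7
      have hxX : (kap f x).2 ∈ X (kap f x).1 := (hmemX _ _).2 (mem_image_of_mem _ (hY'Y hx))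
      have hnl : ¬ ∀ l' ∈ X (kap f x).1, π l' = π (kap f x).2 → l' = (kap f x).2 := by
        intro hall
        exact hnotU (mem_filter.2 ⟨mem_univ _, mem_filter.2 ⟨hxX, hall⟩, h3⟩)
      push Not at hnl
      obtain ⟨l', hl', hπ, hne⟩ := hnl
      obtain ⟨v, hv, hvk⟩ := mem_image.1 ((hmemX _ _).1 hl')
      have k1 : (kap f v).1 = (kap f x).1 := by rw [hvk]
      have k2 : (kap f v).2 = l' := by rw [hvk]
      refine ⟨v, hv, ?_, ?_, k1, ?_⟩
      · rintro rfl
        exact hne k2.symm
      · rintro rfl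
        rw [← hk] at k2
        exact hne k2.symm
      · have : π (kap f v).2 = π (kap f x).2 := by rw [k2, hπ]
        exact this
    · obtain ⟨v, hv⟩ : (Cl \ {x, y}).Nonempty := by
        rw [← card_pos, card_sdiff_of_subset hsub, card_pair hxy]
        omega
      obtain ⟨hvC, hvn⟩ := mem_sdiff.1 hv
      rw [mem_insert, mem_singleton, not_or] at hvn
      obtain ⟨hvY, hvk⟩ := mem_filter.1 hvC
      have k1 : (kap f v).1 = (kap f x).1 := by rw [hvk]
      have k2 : π (kap f v).2 = π (kap f x).2 := by rw [hvk]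
      exact ⟨v, hvY, hvn.1, hvn.2, k1, k2⟩
  have hblock : ∀ (C : Finset (Fin n × Fin n)) (w : V j), Disj C →
      (∀ p ∈ C, p.1 ∈ Y' ∧ p.2 ∈ Y') →
      (∀ p ∈ C, kap f p.1 = kap f p.2 ∧ vec f p.1 + vec f p.2 = w) → C.card ≤ r + 1 := by
    intro C w hC hCY hw
    by_contra hlt
    obtain ⟨Z, hZ, hZc, hb⟩ := exists_block (r := r) (π := π) hC (by omega) (Y := Y)
      (fun p hp => ⟨hY'Y (hCY p hp).1, hY'Y (hCY p hp).2⟩) hw
      (fun p hp => hwit p.1 (hCY p hp).1 p.2 (hCY p hp).2 (hC.ne p hp p hp) (hw p hp).1)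
    exact hcon Z hZ hZc (Or.inr hb)
  obtain ⟨C, hC, hCY, D, hD, hDi, hDc⟩ := exists_clones f Y'
  have hCc : C.card ≤ r + 1 := by
    refine hblock C 0 hC (fun p hp => ⟨(hCY p hp).1, (hCY p hp).2.1⟩) fun p hp => ?_
    have := (hCY p hp).2.2
    refine ⟨by unfold kap; rw [this], ?_⟩
    unfold vec
    rw [this, add_self_V]
  set S := D.image (kap f) with hS
  have hScard : S.card ≤ ∑ c : Fin m, (X c).card := by
    have h1 : S ⊆ (univ : Finset (Fin m)).biUnion fun c => (X c).image fun l => (c, l) := by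
      rintro ⟨c, l⟩ hκ
      refine mem_biUnion.2 ⟨c, mem_univ _, mem_image.2 ⟨l, ?_, rfl⟩⟩
      rw [hmemX]
      obtain ⟨v, hv, hvk⟩ := mem_image.1 hκ
      exact mem_image.2 ⟨v, hY'Y (hD hv), hvk⟩
    exact (card_le_card h1).trans (card_biUnion_le.trans (sum_le_sum fun c _ => card_image_le))
  -- representatives
  have hrep : ∀ k : Fin m × Λ, ∃ v : Fin n, k ∈ S → v ∈ D ∧ kap f v = k := by
    intro k
    by_cases hk : k ∈ S
    · obtain ⟨v, hv, hvk⟩ := mem_image.1 hk
      exact ⟨v, fun _ => ⟨hv, hvk⟩⟩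
    · have : Y.Nonempty := card_pos.1 (by omega)
      exact ⟨this.choose, fun h => absurd h hk⟩
  choose g hg using hrep
  have hmemS : ∀ v ∈ D, kap f v ∈ S := fun v hv => mem_image_of_mem _ hv
  set R := D.filter fun v => g (kap f v) ≠ v with hR
  have hDR : D.card ≤ S.card + R.card := by
    have h1 : (D.filter fun v => ¬ g (kap f v) ≠ v).card ≤ S.card := by
      refine card_le_card_of_injOn (kap f) ?_ ?_
      · intro v hv
        exact mem_coe.2 (hmemS v (mem_filter.1 (mem_coe.1 hv)).1)
      · intro v hv v' hv' h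
        have e1 := not_not.1 (mem_filter.1 (mem_coe.1 hv)).2
        have e2 := not_not.1 (mem_filter.1 (mem_coe.1 hv')).2
        rw [← e1, ← e2, h]
    have h2 := card_filter_add_card_filter_not (s := D) (fun v => g (kap f v) ≠ v)
    rw [← hR] at h2
    omega
  have hRw : ∀ w : V j, (R.filter fun v => vec f (g (kap f v)) + vec f v = w).card ≤
      if w = 0 then 0 else r + 1 := by
    intro w
    by_cases hw : w = 0
    · rw [if_pos hw, Nat.le_zero, card_eq_zero, filter_eq_empty_iff]
      intro v hv h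
      obtain ⟨hvD, hvg⟩ := mem_filter.1 hv
      obtain ⟨h1, h2⟩ := hg _ (hmemS v hvD)
      have h3 : vec f (g (kap f v)) = vec f v := by
        have : vec f (g (kap f v)) + vec f v + vec f v = 0 + vec f v := by rw [h, hw]
        rwa [add_assoc, add_self_V, add_zero, zero_add] at this
      refine hvg (hDi (mem_coe.2 h1) (mem_coe.2 hvD) ?_)
      have h4 : (kap f (g (kap f v))).1 = (kap f v).1 := congrArg Prod.fst h2
      have h5 : (kap f (g (kap f v))).2 = (kap f v).2 := congrArg Prod.snd h2
      exact Prod.ext h4 (Prod.ext h5 h3)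
    · rw [if_neg hw]
      set Rw := R.filter fun v => vec f (g (kap f v)) + vec f v = w with hRw
      have hinj : Set.InjOn (fun v => (g (kap f v), v)) Rw := fun v _ v' _ h => (Prod.mk.inj h).2
      have hc : (Rw.image fun v => (g (kap f v), v)).card = Rw.card := card_image_of_injOn hinj
      rw [← hc]
      have hD' : ∀ v ∈ Rw, v ∈ D ∧ g (kap f v) ≠ v ∧ vec f (g (kap f v)) + vec f v = w := by
        intro v hv
        obtain ⟨h1, h2⟩ := mem_filter.1 hv
        obtain ⟨h3, h4⟩ := mem_filter.1 h1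
        exact ⟨h3, h4, h2⟩
      refine hblock _ w ⟨?_, ?_, ?_⟩ ?_ ?_
      · intro p hp q hq h
        obtain ⟨v, hv, rfl⟩ := mem_image.1 hp
        obtain ⟨v', hv', rfl⟩ := mem_image.1 hq
        obtain ⟨h1, h2, h3⟩ := hD' v hv
        obtain ⟨h1', h2', h3'⟩ := hD' v' hv'
        simp only at h
        have hk : kap f v = kap f v' := by
          rw [← (hg _ (hmemS v h1)).2, ← (hg _ (hmemS v' h1')).2, h]
        have hvec : vec f v = vec f v' := by
          rw [← h3', h] at h3
          exact add_left_cancel h3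
        have : v = v' := by
          refine hDi (mem_coe.2 h1) (mem_coe.2 h1') ?_
          have h4 : (kap f v).1 = (kap f v').1 := congrArg Prod.fst hk
          have h5 : (kap f v).2 = (kap f v').2 := congrArg Prod.snd hk
          exact Prod.ext h4 (Prod.ext h5 hvec)
        rw [this]
      · intro p hp q hq h
        obtain ⟨v, hv, rfl⟩ := mem_image.1 hp
        obtain ⟨v', hv', rfl⟩ := mem_image.1 hq
        simp only at h
        rw [h]
      · intro p hp q hq h
        obtain ⟨v, hv, rfl⟩ := mem_image.1 hp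
        obtain ⟨v', hv', rfl⟩ := mem_image.1 hq
        obtain ⟨h1, h2, h3⟩ := hD' v hv
        obtain ⟨h1', h2', h3'⟩ := hD' v' hv'
        simp only at h
        have hk : kap f v' = kap f v := by
          rw [← (hg _ (hmemS v h1)).2, h]
        exact h2' (by rw [hk, h])
      · intro p hp
        obtain ⟨v, hv, rfl⟩ := mem_image.1 hp
        obtain ⟨h1, h2, h3⟩ := hD' v hv
        exact ⟨hD (hg _ (hmemS v h1)).1, hD h1⟩
      · intro p hp
        obtain ⟨v, hv, rfl⟩ := mem_image.1 hp
        obtain ⟨h1, h2, h3⟩ := hD' v hv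
        exact ⟨(hg _ (hmemS v h1)).2, h3⟩
  have hRc : R.card ≤ (r + 1) * (2 ^ j - 1) := by
    have h1 : R.card = ∑ w : V j, (R.filter fun v => vec f (g (kap f v)) + vec f v = w).card :=
      card_eq_sum_card_fiberwise fun _ _ => mem_coe.2 (mem_univ _)
    rw [h1]
    calc ∑ w : V j, (R.filter fun v => vec f (g (kap f v)) + vec f v = w).card
        ≤ ∑ w : V j, (if w = 0 then 0 else r + 1) := sum_le_sum fun w _ => hRw w
      _ = ∑ w ∈ (univ : Finset (V j)).erase 0, (r + 1) := by
          rw [← sum_erase_add _ _ (mem_univ (0 : V j)), if_pos rfl, add_zero]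
          refine sum_congr rfl fun w hw => ?_
          rw [if_neg (ne_of_mem_erase hw)]
      _ = (r + 1) * (2 ^ j - 1) := by
          rw [sum_const, card_erase_of_mem (mem_univ _), card_univ, smul_eq_mul, mul_comm]
          congr 2
          simp
  have hsum : ∑ c : Fin m, (X c).card + ∑ c : Fin m, (lone π (X c)).card ≤ a' * m := by
    rw [← sum_add_distrib]
    calc ∑ c : Fin m, ((X c).card + (lone π (X c)).card) ≤ ∑ _c : Fin m, a' :=
          sum_le_sum fun c _ => hlone _ (hXc c)
      _ = a' * m := by rw [sum_const, card_univ, Fintype.card_fin, smul_eq_mul, mul_comm]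
  have h2j : 1 ≤ 2 ^ j := Nat.one_le_two_pow
  have hexp : (r + 1) * (2 ^ j + 1) = (r + 1) * (2 ^ j - 1) + 2 * (r + 1) := by
    have : 2 ^ j + 1 = (2 ^ j - 1) + 2 := by omega
    rw [this, mul_add]
    ring
  omega

end Pool.Agent.H69.ColO
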