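import Pool.Agent.H69.ColO.Limit
import Pool.Graph.R_pool_sql_team_seeded_3997aac3.Q235.TU2

/-!
Groups of a proportional size; a lower bound for all `n` and `k`; greedy covering systems as base
systems.
-/

set_option autoImplicit false
set_option linter.unusedSectionVars false

open Finset Filter Topology

namespace Pool.Agent.H69.ColO

/-- the bound with about `a / z` groups -/
theorem group_bound {r : ℕ} {L : ℝ}
    (hL : ∀ k : ℕ, 2 * r + 3 ≤ k → L ≤ ((k : ℝ) - 1) ^ (2 * r + 2) *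
      Pool.Agent.H688R3.TuranGen.t (2 * r + 3) k) {N a : ℕ} (hN : 0 < N)
    (ha : 2 * r + 3 ≤ a + 1) (F : Finset (Finset (Fin N))) (hF1 : ∀ Z ∈ F, Z.card = 2 * r + 3)
    (hF2 : ∀ Y : Finset (Fin N), Y.card = a + 1 → ∃ Z ∈ F, Z ⊆ Y) {y z : ℝ} (hy : 0 < y)
    (hz : 2 < z) :
    L ≤ (1 + 1 / y) ^ (2 * r + 2) * ((1 + 1 / z) ^ (2 * r + 2) * ((a : ℝ) ^ (2 * r + 2) *
      (((2 * r + 3).factorial : ℝ) * (F.card : ℝ)) / (N : ℝ) ^ (2 * r + 3)) +
      ((2 * r + 3).factorial : ℝ) / (2 ^ (r + 1) * (r.factorial : ℝ)) * ((N : ℝ) * z / a + 1) *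
        ((1 + 1 / z) * ((a : ℝ) / N)) ^ (r + 2) * (((r : ℝ) + 1) * y) ^ r) := by
  have hN' : (0 : ℝ) < N := by exact_mod_cast hN
  have ha2 : 2 ≤ a := by omega
  have ha' : (2 : ℝ) ≤ a := by exact_mod_cast ha2
  have ha0 : (0 : ℝ) < a := by linarith
  have hz0 : 0 < z := by linarith
  set g : ℕ := ⌊(a : ℝ) / z⌋₊ + 1 with hg
  have hg1 : (g : ℝ) ≤ (a : ℝ) / z + 1 := by
    rw [hg]
    push_cast
    have := Nat.floor_le (show 0 ≤ (a : ℝ) / z by positivity)
    linarith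
  have hg2 : (a : ℝ) / z < g := by
    rw [hg]
    push_cast
    exact Nat.lt_floor_add_one _
  have hga : g + 1 ≤ a := by
    have h1 : (a : ℝ) / z < (a : ℝ) / 2 := div_lt_div_of_pos_left ha0 (by norm_num) hz
    have h2 : ((⌊(a : ℝ) / z⌋₊ : ℕ) : ℝ) ≤ (a : ℝ) / z := Nat.floor_le (by positivity)
    have h3 : ((2 * ⌊(a : ℝ) / z⌋₊ : ℕ) : ℝ) < (a : ℝ) := by
      push_cast
      linarith
    have h4 : 2 * ⌊(a : ℝ) / z⌋₊ < a := by exact_mod_cast h3
    omega
  have hg0 : (0 : ℝ) < g := lt_trans (by positivity) hg2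
  have hg1' : (1 : ℝ) ≤ g := by exact_mod_cast (show 1 ≤ g by omega)
  have h := base_bound hL hN ha (g := g) (by omega) hga F hF1 hF2 hy
  have e0 : (0 : ℝ) ≤ (a : ℝ) + g - 1 := by linarith
  have e1 : (a : ℝ) + g - 1 ≤ (1 + 1 / z) * a := by
    have : (1 + 1 / z) * (a : ℝ) = a + a / z := by ring
    rw [this]
    linarith
  have e2 : (N : ℝ) / g ≤ (N : ℝ) * z / a := by
    rw [div_le_div_iff₀ hg0 ha0]
    have : (a : ℝ) ≤ z * g := by
      rw [div_lt_iff₀ hz0] at hg2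
      linarith
    nlinarith
  have hf : (0 : ℝ) < (r.factorial : ℝ) := by exact_mod_cast r.factorial_pos
  refine h.trans (mul_le_mul_of_nonneg_left (add_le_add ?_ ?_) (by positivity))
  · have h1 : ((a : ℝ) + g - 1) ^ (2 * r + 2) ≤ ((1 + 1 / z) * a) ^ (2 * r + 2) :=
      pow_le_pow_left₀ e0 e1 _
    rw [mul_pow] at h1
    have h2 := div_le_div_of_nonneg_right (mul_le_mul_of_nonneg_right h1
      (show (0 : ℝ) ≤ ((2 * r + 3).factorial : ℝ) * (F.card : ℝ) by positivity))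
      (show (0 : ℝ) ≤ (N : ℝ) ^ (2 * r + 3) by positivity)
    refine h2.trans (le_of_eq ?_)
    ring
  · have h1 : (((a : ℝ) + g - 1) / N) ^ (r + 2) ≤ ((1 + 1 / z) * ((a : ℝ) / N)) ^ (r + 2) := by
      refine pow_le_pow_left₀ (by positivity) ?_ _
      rw [← mul_div_assoc]
      exact div_le_div_of_nonneg_right e1 hN'.le
    refine mul_le_mul_of_nonneg_right ?_ (by positivity)
    refine mul_le_mul ?_ h1 (by positivity) (by positivity)
    exact mul_le_mul_of_nonneg_left (by linarith) (by positivity)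

/-- the bound from greedy systems -/
theorem greedy_bound {r : ℕ} {L : ℝ}
    (hL : ∀ k : ℕ, 2 * r + 3 ≤ k → L ≤ ((k : ℝ) - 1) ^ (2 * r + 2) *
      Pool.Agent.H688R3.TuranGen.t (2 * r + 3) k) {l : ℕ} (hl : 2 ≤ l) {y z : ℝ} (hy : 0 < y)
    (hz : 2 < z) :
    L ≤ ((2 * r + 3).factorial : ℝ) * ((1 + 1 / y) ^ (2 * r + 2) * ((1 + 1 / z) ^ (2 * r + 2) *
      (1 + Real.log l) + 1 / (2 ^ (r + 1) * (r.factorial : ℝ)) * ((l : ℝ) * z + 1) *
        ((1 + 1 / z) / (l : ℝ)) ^ (r + 2) * (((r : ℝ) + 1) * y) ^ r)) := by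
  have hl0 : (0 : ℝ) < l := by exact_mod_cast (show 0 < l by omega)
  have hz0 : 0 < z := by linarith
  have hf : (0 : ℝ) < (r.factorial : ℝ) := by exact_mod_cast r.factorial_pos
  set C : ℝ := ((2 * r + 3).factorial : ℝ) / (2 ^ (r + 1) * (r.factorial : ℝ)) *
    ((l : ℝ) * z + 1) * ((1 + 1 / z) / (l : ℝ)) ^ (r + 2) * (((r : ℝ) + 1) * y) ^ r with hC
  set W : ℝ := (1 + 1 / z) ^ (2 * r + 2) with hW
  have hW0 : 0 < W := by positivity
  have hlim : Tendsto (fun a : ℕ => (1 + 1 / y) ^ (2 * r + 2) * (W *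
      (((2 * r + 3).factorial : ℝ) *
      Pool.Agent.Q235.TU.G 1 l 1 (2 * r + 3) (2 * r + 3) (1 / (a : ℝ))) + C)) atTop
      (𝓝 ((1 + 1 / y) ^ (2 * r + 2) * (W * (((2 * r + 3).factorial : ℝ) *
        ((1 : ℝ) ^ (2 * r + 3 - 1) / ((l : ℝ) * 1) ^ (2 * r + 3) * (((l : ℝ) * 1 / 1) ^ (2 * r + 3) *
          (1 * Real.log (Real.exp 1 * ((l : ℝ) * 1) / 1))))) + C))) :=
    ((((Pool.Agent.Q235.TU.G_tendsto one_pos hl0 one_pos (2 * r + 3) (2 * r + 3)).const_mul
      _).const_mul _).add_const _).const_mul _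
  have hle : ∀ᶠ a : ℕ in atTop, L ≤ (1 + 1 / y) ^ (2 * r + 2) * (W *
      (((2 * r + 3).factorial : ℝ) *
      Pool.Agent.Q235.TU.G 1 l 1 (2 * r + 3) (2 * r + 3) (1 / (a : ℝ))) + C) := by
    filter_upwards [eventually_gt_atTop (2 * r + 3)] with a ha
    obtain ⟨R, hR1, hR2, hR3⟩ := Pool.Agent.Q235.TU.cost (A := 1) (L := l) (b0 := 1)
      (r := 2 * r + 3) (h := 2 * r + 3) (a := a) le_rfl hl le_rfl le_rfl le_rfl (by omega) ha
    have hNe : l * 1 * a = l * a := by ring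
    have ha0 : (0 : ℝ) < a := by exact_mod_cast (show 0 < a by omega)
    have hN : 0 < l * 1 * a := by
      rw [hNe]
      exact Nat.mul_pos (by omega) (by omega)
    have h := group_bound hL (N := l * 1 * a) (a := a) hN (by omega) R hR1
      (fun Y hY => hR2 Y (by omega)) hy hz
    refine h.trans (mul_le_mul_of_nonneg_left (add_le_add ?_ (le_of_eq ?_)) (by positivity))
    · refine mul_le_mul_of_nonneg_left ?_ hW0.le
      have hd : (((l * 1 * a).descFactorial (2 * r + 3) : ℕ) : ℝ) ≤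
          ((l * 1 * a : ℕ) : ℝ) ^ (2 * r + 3) := by
        exact_mod_cast Nat.descFactorial_le_pow (l * 1 * a) (2 * r + 3)
      have hd0 : (0 : ℝ) < (((l * 1 * a).descFactorial (2 * r + 3) : ℕ) : ℝ) := by
        have hle2 : 2 * r + 3 ≤ l * 1 * a := by
          rw [hNe]
          have : 1 * a ≤ l * a := Nat.mul_le_mul_right _ (by omega)
          omega
        have : 0 < (l * 1 * a).descFactorial (2 * r + 3) := Nat.pos_of_ne_zero (by
          rw [Ne, Nat.descFactorial_eq_zero_iff_lt]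
          omega)
        exact_mod_cast this
      have h1 : (a : ℝ) ^ (2 * r + 2) * (((2 * r + 3).factorial : ℝ) * (R.card : ℝ)) /
          ((l * 1 * a : ℕ) : ℝ) ^ (2 * r + 3) ≤ (a : ℝ) ^ (2 * r + 2) *
            (((2 * r + 3).factorial : ℝ) * (R.card : ℝ)) /
              (((l * 1 * a).descFactorial (2 * r + 3) : ℕ) : ℝ) :=
        div_le_div_of_nonneg_left (by positivity) hd0 hd
      refine h1.trans ?_
      have h2 : (a : ℝ) ^ (2 * r + 2) * (((2 * r + 3).factorial : ℝ) * (R.card : ℝ)) /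
              (((l * 1 * a).descFactorial (2 * r + 3) : ℕ) : ℝ) = ((2 * r + 3).factorial : ℝ) *
          ((((1 : ℕ) : ℝ) * (a : ℝ)) ^ (2 * r + 3 - 1) /
            (((l * 1 * a).descFactorial (2 * r + 3) : ℕ) : ℝ) * (R.card : ℝ)) := by
        push_cast
        rw [one_mul]
        ring
      rw [h2]
      refine mul_le_mul_of_nonneg_left ?_ (by positivity)
      have h3 := hR3
      push_cast at h3 ⊢
      exact h3
    · rw [hC]
      have q1 : ((l * 1 * a : ℕ) : ℝ) * z / a = l * z := by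
        push_cast
        field_simp
      have q2 : (1 + 1 / z) * ((a : ℝ) / ((l * 1 * a : ℕ) : ℝ)) = (1 + 1 / z) / (l : ℝ) := by
        push_cast
        field_simp
      rw [q1, q2]
  have hfin := ge_of_tendsto hlim hle
  refine hfin.trans (le_of_eq ?_)
  have e1 : Real.log (Real.exp 1 * ((l : ℝ) * 1) / 1) = 1 + Real.log l := by
    rw [mul_one, div_one, Real.log_mul (Real.exp_pos 1).ne' hl0.ne', Real.log_exp]
  rw [e1, hC, one_pow, mul_one, div_one, one_mul]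
  have e2 : 1 / (l : ℝ) ^ (2 * r + 3) * ((l : ℝ) ^ (2 * r + 3) * (1 + Real.log l)) =
      1 + Real.log l := by
    field_simp
  rw [e2]
  set P := (1 + 1 / y) ^ (2 * r + 2)
  set Z := (((r : ℝ) + 1) * y) ^ r
  set Z' := ((1 + 1 / z) / (l : ℝ)) ^ (r + 2)
  ring

/-- a lower bound for all `n` and `k` in terms of the limit -/
theorem uniform {r N k : ℕ} {L : ℝ} (hN : 0 < N) (hk : 2 * r + 3 ≤ k) (hL0 : 0 ≤ L)
    (hL : ∀ k : ℕ, 2 * r + 3 ≤ k → L ≤ ((k : ℝ) - 1) ^ (2 * r + 2) *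
      Pool.Agent.H688R3.TuranGen.t (2 * r + 3) k)
    (F : Finset (Finset (Fin N))) (hF1 : ∀ Z ∈ F, Z.card = 2 * r + 3)
    (hF2 : ∀ Y : Finset (Fin N), Y.card = k → ∃ Z ∈ F, Z ⊆ Y) :
    (L - (4 * ((r : ℝ) + 1) * L + ((2 * r + 3).factorial : ℝ) / (2 ^ r * (r.factorial : ℝ)) *
        ((r : ℝ) + 1) ^ r) * (((k : ℝ) - 1) / N) ^ (((r : ℝ) + 1) / ((r : ℝ) + 2))) *
      ((N : ℝ) ^ (2 * r + 3) / (((2 * r + 3).factorial : ℝ) * ((k : ℝ) - 1) ^ (2 * r + 2))) ≤
        (F.card : ℝ) := by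
  have hN' : (0 : ℝ) < N := by exact_mod_cast hN
  have hk' : (3 : ℝ) ≤ k := by exact_mod_cast (show 3 ≤ k by omega)
  have hk1 : (0 : ℝ) < (k : ℝ) - 1 := by linarith
  have hf : (0 : ℝ) < ((2 * r + 3).factorial : ℝ) := by exact_mod_cast Nat.factorial_pos _
  have hfr : (0 : ℝ) < (r.factorial : ℝ) := by exact_mod_cast r.factorial_pos
  set x : ℝ := ((k : ℝ) - 1) / N with hx
  have hx0 : 0 < x := by positivity
  set α : ℝ := ((r : ℝ) + 1) / ((r : ℝ) + 2) with hα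
  have hα0 : 0 < α := by positivity
  set w : ℝ := x ^ α with hw
  have hw0 : 0 < w := Real.rpow_pos_of_pos hx0 _
  set K : ℝ := ((2 * r + 3).factorial : ℝ) / (2 ^ r * (r.factorial : ℝ)) * ((r : ℝ) + 1) ^ r with hK
  have hK0 : 0 < K := by positivity
  set U : ℝ := (N : ℝ) ^ (2 * r + 3) / (((2 * r + 3).factorial : ℝ) * ((k : ℝ) - 1) ^ (2 * r + 2))
    with hU
  have hU0 : 0 < U := by positivity
  by_cases hw2 : 1 / 2 ≤ w
  · -- trivial
    have h1 : L - (4 * ((r : ℝ) + 1) * L + K) * w ≤ 0 := by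
      have hr : (0 : ℝ) ≤ r := Nat.cast_nonneg r
      have h2 : L ≤ 4 * ((r : ℝ) + 1) * L * (1 / 2) := by nlinarith
      have h3 : 4 * ((r : ℝ) + 1) * L * (1 / 2) ≤ 4 * ((r : ℝ) + 1) * L * w :=
        mul_le_mul_of_nonneg_left hw2 (by positivity)
      nlinarith
    have h2 : (L - (4 * ((r : ℝ) + 1) * L + K) * w) * U ≤ 0 := mul_nonpos_of_nonpos_of_nonneg h1 hU0.le
    exact h2.trans (Nat.cast_nonneg _)
  push Not at hw2
  have hkc : ((k - 1 : ℕ) : ℝ) = (k : ℝ) - 1 := by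
    rw [Nat.cast_sub (by omega)]
    norm_num
  have hy2 : 2 < 1 / w := by
    rw [lt_div_iff₀ hw0]
    linarith
  have h := group_bound hL (N := N) (a := k - 1) hN (by omega) F hF1
    (fun Y hY => hF2 Y (by omega)) (y := 1 / w) (z := 1 / w) (by positivity) hy2
  rw [hkc, one_div_one_div] at h
  -- `x < 1`
  have hx1 : x < 1 := by
    by_contra hge
    push Not at hge
    have : 1 ≤ w := Real.one_le_rpow hge hα0.le
    linarith
  set V : ℝ := ((k : ℝ) - 1) ^ (2 * r + 2) * (((2 * r + 3).factorial : ℝ) * (F.card : ℝ)) /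
    (N : ℝ) ^ (2 * r + 3) with hV
  have hV0 : 0 ≤ V := by positivity
  have hq : (N : ℝ) * (1 / w) / ((k : ℝ) - 1) = 1 / (w * x) := by
    rw [hx]
    field_simp
  rw [hq] at h
  -- the power
  have hwx : w ^ (r + 2) = x ^ (r + 1) := by
    rw [hw, ← Real.rpow_natCast (x ^ α), ← Real.rpow_mul hx0.le, ← Real.rpow_natCast x]
    congr 1
    rw [hα]
    push_cast
    field_simp
  have hP1 : (1 : ℝ) ≤ 1 + w := by linarith
  have hP0 : (0 : ℝ) < 1 + w := by linarith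
  -- the second term
  have h2 : ((2 * r + 3).factorial : ℝ) / (2 ^ (r + 1) * (r.factorial : ℝ)) * (1 / (w * x) + 1) *
        ((1 + w) * x) ^ (r + 2) * (((r : ℝ) + 1) * (1 / w)) ^ r ≤
      (1 + w) ^ (2 * r + 2) * (K * w) := by
    have a1 : 1 / (w * x) + 1 ≤ 2 * (1 / (w * x)) := by
      have : 1 ≤ 1 / (w * x) := by
        rw [le_div_iff₀ (by positivity)]
        nlinarith
      linarith
    have a2 : (1 + w) ^ (r + 2) ≤ (1 + w) ^ (2 * r + 2) := pow_le_pow_right₀ hP1 (by omega)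
    have a3 : x ^ (r + 2) * (1 / w) ^ r * (1 / (w * x)) = w := by
      have b1 : x ^ (r + 2) = x ^ (r + 1) * x := pow_succ _ _
      have b2 : w ^ (r + 2) = w ^ r * w * w := by ring
      rw [b1, ← hwx, b2, one_div_pow]
      field_simp
    calc ((2 * r + 3).factorial : ℝ) / (2 ^ (r + 1) * (r.factorial : ℝ)) * (1 / (w * x) + 1) *
        ((1 + w) * x) ^ (r + 2) * (((r : ℝ) + 1) * (1 / w)) ^ r
        = (((2 * r + 3).factorial : ℝ) / (2 ^ (r + 1) * (r.factorial : ℝ)) *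
            (x ^ (r + 2) * (1 / w) ^ r * ((r : ℝ) + 1) ^ r)) *
          ((1 / (w * x) + 1) * (1 + w) ^ (r + 2)) := by
          rw [mul_pow, mul_pow]
          ring
      _ ≤ (((2 * r + 3).factorial : ℝ) / (2 ^ (r + 1) * (r.factorial : ℝ)) *
            (x ^ (r + 2) * (1 / w) ^ r * ((r : ℝ) + 1) ^ r)) *
          ((2 * (1 / (w * x))) * (1 + w) ^ (2 * r + 2)) := by
          refine mul_le_mul_of_nonneg_left (mul_le_mul a1 a2 (by positivity) (by positivity))
            (by positivity)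
      _ = (1 + w) ^ (2 * r + 2) * ((((2 * r + 3).factorial : ℝ) / (2 ^ r * (r.factorial : ℝ)) *
            ((r : ℝ) + 1) ^ r) * (x ^ (r + 2) * (1 / w) ^ r * (1 / (w * x)))) := by
          rw [pow_succ 2 r]
          field_simp
      _ = _ := by rw [a3, hK]
  have h3 : L ≤ (1 + w) ^ (2 * r + 2) * ((1 + w) ^ (2 * r + 2) * (V + K * w)) := by
    refine h.trans (mul_le_mul_of_nonneg_left ?_ (by positivity))
    rw [mul_add]
    linarith
  -- Bernoulli
  have hb : 1 - (4 * ((r : ℝ) + 1)) * w ≤ (1 / (1 + w)) ^ (4 * r + 4) := by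
    have h4 : (1 : ℝ) + ((4 * r + 4 : ℕ) : ℝ) * (-(w / (1 + w))) ≤
        (1 + -(w / (1 + w))) ^ (4 * r + 4) := by
      refine one_add_mul_le_pow ?_ _
      have : w / (1 + w) ≤ 1 := by
        rw [div_le_one hP0]
        linarith
      linarith
    have e1 : (1 : ℝ) + -(w / (1 + w)) = 1 / (1 + w) := by
      field_simp
      ring
    rw [e1] at h4
    push_cast at h4
    have h5 : w / (1 + w) ≤ w := by
      rw [div_le_iff₀ hP0]
      nlinarith
    have h6 : (0 : ℝ) ≤ 4 * (r : ℝ) + 4 := by positivity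
    nlinarith
  have h6 : L * (1 / (1 + w)) ^ (4 * r + 4) ≤ V + K * w := by
    have h7 : (1 / (1 + w)) ^ (4 * r + 4) * ((1 + w) ^ (2 * r + 2) * (1 + w) ^ (2 * r + 2)) = 1 := by
      rw [← pow_add, show 2 * r + 2 + (2 * r + 2) = 4 * r + 4 by ring, ← mul_pow]
      have : 1 / (1 + w) * (1 + w) = 1 := by field_simp
      rw [this, one_pow]
    have h8 : 0 ≤ (1 / (1 + w)) ^ (4 * r + 4) := by positivity
    calc L * (1 / (1 + w)) ^ (4 * r + 4) ≤ ((1 + w) ^ (2 * r + 2) * ((1 + w) ^ (2 * r + 2) *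
          (V + K * w))) * (1 / (1 + w)) ^ (4 * r + 4) := mul_le_mul_of_nonneg_right h3 h8
      _ = ((1 / (1 + w)) ^ (4 * r + 4) * ((1 + w) ^ (2 * r + 2) * (1 + w) ^ (2 * r + 2))) *
          (V + K * w) := by ring
      _ = _ := by rw [h7, one_mul]
  have h9 : L - (4 * ((r : ℝ) + 1) * L + K) * w ≤ V := by
    have := mul_le_mul_of_nonneg_left hb hL0
    nlinarith
  have h10 : V * U = (F.card : ℝ) := by
    rw [hV, hU]
    field_simp
  rw [← h10]
  exact mul_le_mul_of_nonneg_right h9 hU0.le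

end Pool.Agent.H69.ColO
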