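import Pool.Agent.H69.ColO.Count
import Pool.Agent.H69.Col4.Limit

/-!
The limit for many components and many colours, odd uniformities.
-/

set_option autoImplicit false
set_option linter.unusedSectionVars false

open Finset Filter Topology

namespace Pool.Agent.H69.ColO

open Pool.Agent.H69.ColE (B card_B_le)

/-- the bound for given numbers of components and colours -/
theorem le_of_main {r : ℕ} {L : ℝ}
    (hL : ∀ k : ℕ, 2 * r + 3 ≤ k → L ≤ ((k : ℝ) - 1) ^ (2 * r + 2) *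
      Pool.Agent.H688R3.TuranGen.t (2 * r + 3) k) {Λ Γ : Type} [Fintype Λ] [DecidableEq Λ]
    [AddCommGroup Λ] [DecidableEq Γ] {Q : Finset (Finset Λ)} {π : Λ → Γ} {a a' δ : ℕ}
    (hcov : ∀ X : Finset Λ, X.card = a + 1 → ∃ e ∈ Q, e ⊆ X)
    (hlone : ∀ X : Finset Λ, X.card ≤ a → X.card + (lone π X).card ≤ a')
    (hQ : ∀ e ∈ Q, e.card = 2 * r + 3)
    (hδ : ∀ l : Λ, (univ.filter fun l' => π l' = π l).card ≤ δ) (ha : 2 * r + 3 ≤ a' + 1)
    (m j : ℕ) (hm : 0 < m) :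
    L ≤ ((a' : ℝ) * m + ((r : ℝ) + 1) * (2 ^ j + 1)) ^ (2 * r + 2) *
      dens r (Fintype.card Λ) (B (2 * r + 3) Q).card δ m j := by
  have : NeZero m := ⟨hm.ne'⟩
  have hmul : a' ≤ a' * m := by
    calc a' = a' * 1 := (mul_one _).symm
      _ ≤ a' * m := Nat.mul_le_mul_left _ hm
  obtain ⟨σ, hσ⟩ : ∃ σ, 2 * r + 3 + σ = a' * m + (r + 1) * (2 ^ j + 1) + 1 :=
    ⟨a' * m + (r + 1) * (2 ^ j + 1) + 1 - (2 * r + 3), by omega⟩
  have htd := main hcov hlone hQ hδ m j σ hσ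
  have h1 := hL (2 * r + 3 + σ) (by omega)
  have h3 := Pool.Agent.X44.TS.t_le_of_td htd
  refine h1.trans ?_
  have e : (((2 * r + 3 + σ : ℕ) : ℝ) - 1) = (a' : ℝ) * m + ((r : ℝ) + 1) * (2 ^ j + 1) := by
    rw [hσ]
    push_cast
    ring
  rw [e]
  exact mul_le_mul_of_nonneg_left h3 (by positivity)

/-- the bound in the limit -/
theorem limit_bound {r : ℕ} {L : ℝ} {a N b δ : ℕ} (ha : 0 < a) (hN : 0 < N)
    (h : ∀ m j : ℕ, 0 < m → L ≤ ((a : ℝ) * m + ((r : ℝ) + 1) * (2 ^ j + 1)) ^ (2 * r + 2) *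
      dens r N b δ m j) {y : ℝ} (hy : 0 < y) :
    L ≤ (1 + 1 / y) ^ (2 * r + 2) * ((a : ℝ) ^ (2 * r + 2) * b / (N : ℝ) ^ (2 * r + 3) +
      ((2 * r + 3).factorial : ℝ) / (2 ^ (r + 1) * (r.factorial : ℝ)) * δ *
        ((a : ℝ) / N) ^ (r + 2) * (((r : ℝ) + 1) * y) ^ r) := by
  have ha' : (0 : ℝ) < a := by exact_mod_cast ha
  have hN' : (0 : ℝ) < N := by exact_mod_cast hN
  have hs0 : (0 : ℝ) < (r : ℝ) + 1 := by positivity
  have hf : (0 : ℝ) < (r.factorial : ℝ) := by exact_mod_cast r.factorial_pos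
  set z : ℝ := (r : ℝ) + 1 with hz
  set μ : ℝ := z * y / a with hμ
  have hμ0 : 0 < μ := by positivity
  set κ : ℝ := ((2 * r + 3).factorial : ℝ) / (2 ^ (r + 1) * (r.factorial : ℝ)) * δ with hκ
  have hpow : Tendsto (fun j : ℕ => (2 : ℝ) ^ j) atTop atTop :=
    tendsto_pow_atTop_atTop_of_one_lt (by norm_num)
  set M : ℕ → ℕ := fun j => ⌈μ * 2 ^ j⌉₊ with hM
  have hMpos : ∀ j, 0 < M j := fun j => Nat.ceil_pos.2 (by positivity)
  have hx : Tendsto (fun j : ℕ => (M j : ℝ) / 2 ^ j) atTop (𝓝 μ) :=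
    (tendsto_nat_ceil_mul_div_atTop hμ0.le).comp hpow
  have hxi : Tendsto (fun j : ℕ => (2 : ℝ) ^ j / (M j : ℝ)) atTop (𝓝 μ⁻¹) := by
    refine (hx.inv₀ hμ0.ne').congr fun j => ?_
    rw [inv_div]
  have hMi : Tendsto (fun j : ℕ => 1 / (M j : ℝ)) atTop (𝓝 0) := by
    have h1 : Tendsto (fun j : ℕ => ((2 : ℝ) ^ j / (M j : ℝ)) * ((2 : ℝ) ^ j)⁻¹) atTop
        (𝓝 (μ⁻¹ * 0)) := hxi.mul (tendsto_inv_atTop_zero.comp hpow)
    rw [mul_zero] at h1
    refine h1.congr fun j => ?_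
    have : (2 : ℝ) ^ j ≠ 0 := by positivity
    field_simp
  have hlim : Tendsto (fun j : ℕ => ((a : ℝ) + z * (2 ^ j / (M j : ℝ) + 1 / (M j : ℝ))) ^
      (2 * r + 2) * ((b : ℝ) / (N : ℝ) ^ (2 * r + 3) + κ * ((M j : ℝ) / 2 ^ j) ^ r /
        (N : ℝ) ^ (r + 2))) atTop
      (𝓝 (((a : ℝ) + z * (μ⁻¹ + 0)) ^ (2 * r + 2) * ((b : ℝ) / (N : ℝ) ^ (2 * r + 3) +
        κ * μ ^ r / (N : ℝ) ^ (r + 2)))) :=
    ((((hxi.add hMi).const_mul z).const_add _).pow _).mul
      ((((hx.pow _).const_mul κ).div_const _).const_add _)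
  have hle : ∀ j, L ≤ ((a : ℝ) + z * (2 ^ j / (M j : ℝ) + 1 / (M j : ℝ))) ^
      (2 * r + 2) * ((b : ℝ) / (N : ℝ) ^ (2 * r + 3) + κ * ((M j : ℝ) / 2 ^ j) ^ r /
        (N : ℝ) ^ (r + 2)) := by
    intro j
    have h1 := h (M j) j (hMpos j)
    have hMp : (0 : ℝ) < (M j : ℝ) := by exact_mod_cast hMpos j
    have h2 : (0 : ℝ) < (2 : ℝ) ^ j := by positivity
    refine h1.trans (le_of_eq ?_)
    have e1 : ((a : ℝ) * (M j : ℝ) + z * (2 ^ j + 1)) =
        (M j : ℝ) * ((a : ℝ) + z * (2 ^ j / (M j : ℝ) + 1 / (M j : ℝ))) := by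
      field_simp
    rw [e1, mul_pow, mul_comm ((M j : ℝ) ^ (2 * r + 2)), mul_assoc]
    congr 1
    unfold dens
    rw [← hκ, mul_add]
    congr 1
    · field_simp
    · have e2 : (M j : ℝ) ^ (2 * r + 2) = (M j : ℝ) ^ (r + 2) * (M j : ℝ) ^ r := by
        rw [← pow_add]
        congr 1
        omega
      rw [e2, mul_pow, div_pow]
      field_simp
  have hfin := ge_of_tendsto' hlim hle
  refine hfin.trans (le_of_eq ?_)
  have e1 : (a : ℝ) + z * (μ⁻¹ + 0) = a * (1 + 1 / y) := by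
    rw [hμ, add_zero]
    field_simp
  rw [e1, mul_pow, mul_comm ((a : ℝ) ^ (2 * r + 2)), mul_assoc]
  congr 1
  rw [mul_add]
  congr 1
  · ring
  · have e2 : (a : ℝ) ^ (2 * r + 2) = (a : ℝ) ^ (r + 2) * (a : ℝ) ^ r := by
      rw [← pow_add]
      congr 1
      omega
    rw [hμ, e2, div_pow, div_pow]
    field_simp

/-- groups of labels: the residues modulo `g` -/
def grp {N : ℕ} (g : ℕ) : Fin N → ℕ := fun i => (i : ℕ) % g

lemma card_grp {N g : ℕ} (l : Fin N) :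
    ((univ : Finset (Fin N)).filter fun l' => grp g l' = grp g l).card ≤ N / g + 1 := by
  have h1 : ((univ : Finset (Fin N)).filter fun l' => grp g l' = grp g l).card ≤
      (range (N / g + 1)).card := by
    refine card_le_card_of_injOn (fun i => (i : ℕ) / g) ?_ ?_
    · intro i _
      refine mem_coe.2 (mem_range.2 ?_)
      have : (i : ℕ) / g ≤ N / g := Nat.div_le_div_right i.2.le
      show (i : ℕ) / g < N / g + 1
      omega
    · intro i hi i' hi' h
      have e1 : (i : ℕ) % g = (l : ℕ) % g := (mem_filter.1 (mem_coe.1 hi)).2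
      have e2 : (i' : ℕ) % g = (l : ℕ) % g := (mem_filter.1 (mem_coe.1 hi')).2
      have e3 : (i : ℕ) / g = (i' : ℕ) / g := h
      apply Fin.ext
      rw [← Nat.div_add_mod (i : ℕ) g, ← Nat.div_add_mod (i' : ℕ) g, e1, e2, e3]
  rwa [card_range] at h1

lemma mem_lone {Λ Γ : Type} [Fintype Λ] [DecidableEq Λ] [DecidableEq Γ] {π : Λ → Γ}
    {X : Finset Λ} {l : Λ} :
    l ∈ lone π X ↔ l ∈ X ∧ ∀ l' ∈ X, π l' = π l → l' = l := by
  unfold lone
  exact mem_filter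

lemma card_lone {N g : ℕ} (hg : 0 < g) {a : ℕ} (hga : g + 1 ≤ a) (X : Finset (Fin N))
    (hX : X.card ≤ a) : X.card + (lone (grp g) X).card ≤ a + g - 1 := by
  classical
  have hinj : Set.InjOn (grp g) ((lone (grp g) X : Finset (Fin N)) : Set (Fin N)) := by
    intro l hl l' hl' h
    exact ((mem_lone.1 (mem_coe.1 hl)).2 l' (mem_lone.1 (mem_coe.1 hl')).1 h.symm).symm
  have himg : (lone (grp g) X).image (grp g) ⊆ range g := by
    intro i hi
    obtain ⟨l, -, rfl⟩ := mem_image.1 hi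
    exact mem_range.2 (Nat.mod_lt _ hg)
  have h1 : (lone (grp g) X).card ≤ g := by
    have := card_le_card himg
    rwa [card_image_of_injOn hinj, card_range] at this
  by_cases h2 : (lone (grp g) X).card = g
  · -- all groups have a single label
    have h3 : (lone (grp g) X).image (grp g) = range g := by
      refine eq_of_subset_of_card_le himg ?_
      rw [card_image_of_injOn hinj, card_range, h2]
    have h4 : X ⊆ lone (grp g) X := by
      intro x hx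
      have h5 : grp g x ∈ range g := mem_range.2 (Nat.mod_lt _ hg)
      rw [← h3] at h5
      obtain ⟨l, hl, hlx⟩ := mem_image.1 h5
      have := (mem_lone.1 hl).2 x hx hlx.symm
      rw [this]
      exact hl
    have h5 : X.card ≤ g := by
      have := card_le_card h4
      omega
    omega
  · omega

/-- the bound from a system on `N` points with `g` groups of labels -/
theorem base_bound {r : ℕ} {L : ℝ}
    (hL : ∀ k : ℕ, 2 * r + 3 ≤ k → L ≤ ((k : ℝ) - 1) ^ (2 * r + 2) *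
      Pool.Agent.H688R3.TuranGen.t (2 * r + 3) k) {N a g : ℕ} (hN : 0 < N)
    (ha : 2 * r + 3 ≤ a + 1) (hg : 0 < g) (hga : g + 1 ≤ a)
    (F : Finset (Finset (Fin N))) (hF1 : ∀ Z ∈ F, Z.card = 2 * r + 3)
    (hF2 : ∀ Y : Finset (Fin N), Y.card = a + 1 → ∃ Z ∈ F, Z ⊆ Y) {y : ℝ} (hy : 0 < y) :
    L ≤ (1 + 1 / y) ^ (2 * r + 2) * (((a : ℝ) + g - 1) ^ (2 * r + 2) *
      (((2 * r + 3).factorial : ℝ) * (F.card : ℝ)) / (N : ℝ) ^ (2 * r + 3) +
      ((2 * r + 3).factorial : ℝ) / (2 ^ (r + 1) * (r.factorial : ℝ)) * ((N : ℝ) / g + 1) *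
        (((a : ℝ) + g - 1) / N) ^ (r + 2) * (((r : ℝ) + 1) * y) ^ r) := by
  have : NeZero N := ⟨hN.ne'⟩
  have hg' : (1 : ℝ) ≤ g := by exact_mod_cast hg
  have ha1 : (1 : ℝ) ≤ a := by exact_mod_cast (show 1 ≤ a by omega)
  have hcast : ((a + g - 1 : ℕ) : ℝ) = (a : ℝ) + g - 1 := by
    rw [Nat.cast_sub (by omega)]
    push_cast
    ring
  have h := limit_bound (L := L) (a := a + g - 1) (N := N) (b := (B (2 * r + 3) F).card)
    (δ := N / g + 1) (by omega) hN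
    (fun m j hm => by
      have := le_of_main (Λ := Fin N) hL (Q := F) (π := grp g) (a := a) (a' := a + g - 1)
        (δ := N / g + 1) hF2 (fun X hX => card_lone hg hga X hX) hF1 (fun l => card_grp l)
        (by omega) m j hm
      rwa [Fintype.card_fin] at this) hy
  rw [hcast] at h
  have hz : (0 : ℝ) ≤ (a : ℝ) + g - 1 := by linarith
  refine h.trans (mul_le_mul_of_nonneg_left (add_le_add ?_ ?_) (by positivity))
  · have hB : ((B (2 * r + 3) F).card : ℝ) ≤ ((2 * r + 3).factorial : ℝ) * (F.card : ℝ) := by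
      exact_mod_cast card_B_le hF1
    exact div_le_div_of_nonneg_right (mul_le_mul_of_nonneg_left hB (by positivity)) (by positivity)
  · have h1 : ((N / g + 1 : ℕ) : ℝ) ≤ (N : ℝ) / g + 1 := by
      push_cast
      have := Nat.cast_div_le (α := ℝ) (m := N) (n := g)
      linarith
    have h2 : (0 : ℝ) ≤ (((a : ℝ) + g - 1) / N) ^ (r + 2) := by positivity
    have h3 : (0 : ℝ) ≤ (((r : ℝ) + 1) * y) ^ r := by positivity
    refine mul_le_mul_of_nonneg_right (mul_le_mul_of_nonneg_right ?_ h2) h3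
    exact mul_le_mul_of_nonneg_left h1 (by positivity)

end Pool.Agent.H69.ColO
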