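import Pool.Graph.R_seed8.H688R3.TuranGenLimit

/-!
The step inequality `T(n, a+l+1, r+1) / C(n, r+1) ≤ (1/l) T(n, a+1, r) / C(n, r)`.
-/

set_option autoImplicit false
set_option linter.unusedSectionVars false

open Finset Filter Topology

namespace Pool.Agent.H69.ColO.Step

variable {n : ℕ}

/-- the points below all points of `X` -/
def below (X : Finset (Fin n)) : Finset (Fin n) := univ.filter fun v => ∀ y ∈ X, v < y

/-- the points below `X` which are congruent to the least point of `X` modulo `l` -/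
def low (l : ℕ) (X : Finset (Fin n)) : Finset (Fin n) :=
  univ.filter fun v => ∃ x ∈ X, (∀ y ∈ X, x ≤ y) ∧ v < x ∧ v.val ≡ x.val [MOD l]

/-- all sets `X ∪ {v}`, `v ∈ low X`, `X ∈ G` -/
def ext (l : ℕ) (G : Finset (Finset (Fin n))) : Finset (Finset (Fin n)) :=
  G.biUnion fun X => (low l X).image fun v => insert v X

lemma card_low_le {l : ℕ} (hl : 1 ≤ l) {X : Finset (Fin n)} (hX : X.Nonempty) :
    l * (low l X).card ≤ (below X).card := by
  obtain ⟨x, hx, hmin⟩ := exists_min_image X id hX
  simp only [id] at hmin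
  have h1 : (low l X).card ≤ x.val / l := by
    have h2 : (low l X).image Fin.val ⊆ (range x.val).filter (fun v => v ≡ x.val [MOD l]) := by
      intro v hv
      obtain ⟨w, hw, rfl⟩ := mem_image.1 hv
      obtain ⟨x', hx', hmin', hlt, hmod⟩ := (mem_filter.1 hw).2
      have e : x' = x := le_antisymm (hmin' x hx) (hmin x' hx')
      subst e
      exact mem_filter.2 ⟨mem_range.2 hlt, hmod⟩
    have h3 := card_le_card h2
    rw [card_image_of_injective _ Fin.val_injective, ← Nat.count_eq_card_filter_range,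
      Nat.count_modEq_card _ (by omega)] at h3
    simpa using h3
  have h4 : x.val ≤ (below X).card := by
    have h5 : (univ : Finset (Fin x.val)).map ⟨fun i => (⟨i.val, i.2.trans x.2⟩ : Fin n),
        fun i j h => by simpa [Fin.ext_iff] using h⟩ ⊆ below X := by
      intro v hv
      obtain ⟨i, -, rfl⟩ := mem_map.1 hv
      refine mem_filter.2 ⟨mem_univ _, fun y hy => ?_⟩
      have := hmin y hy
      rw [Fin.lt_def]
      exact lt_of_lt_of_le i.2 this
    have h6 := card_le_card h5
    rwa [card_map, card_univ, Fintype.card_fin] at h6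
  calc l * (low l X).card ≤ l * (x.val / l) := Nat.mul_le_mul_left _ h1
    _ ≤ x.val := Nat.mul_div_le _ _
    _ ≤ _ := h4

lemma sum_below {r : ℕ} :
    ∑ X ∈ powersetCard r (univ : Finset (Fin n)), (below X).card ≤ n.choose (r + 1) := by
  rw [← card_sigma]
  have h : ((powersetCard r (univ : Finset (Fin n))).sigma fun X => below X).card ≤
      (powersetCard (r + 1) (univ : Finset (Fin n))).card := by
    refine card_le_card_of_injOn (fun p => insert p.2 p.1) ?_ ?_
    · rintro ⟨X, v⟩ hp
      simp only [coe_sigma, Set.mem_sigma_iff, mem_coe, mem_powersetCard, below, mem_filter,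
        mem_univ, true_and, subset_univ] at hp ⊢
      have hv : v ∉ X := fun h => lt_irrefl _ (hp.2 v h)
      rw [card_insert_of_notMem hv, hp.1]
    · rintro ⟨X, v⟩ hp ⟨X', v'⟩ hp' heq
      simp only [coe_sigma, Set.mem_sigma_iff, mem_coe, mem_powersetCard, below, mem_filter,
        mem_univ, true_and, subset_univ] at hp hp'
      simp only at heq
      have hv : v ∉ X := fun h => lt_irrefl _ (hp.2 v h)
      have hv' : v' ∉ X' := fun h => lt_irrefl _ (hp'.2 v' h)
      have e : v = v' := by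
        have a1 : v ∈ insert v' X' := heq ▸ mem_insert_self v X
        have a2 : v' ∈ insert v X := heq.symm ▸ mem_insert_self v' X'
        rcases mem_insert.1 a1 with a | a
        · exact a
        rcases mem_insert.1 a2 with b | b
        · exact b.symm
        exact absurd (hp.2 v' b) (not_lt.2 (hp'.2 v a).le)
      subst e
      have e2 : X = X' := by
        rw [← erase_insert hv, ← erase_insert hv', heq]
      subst e2
      rfl
  rwa [card_powersetCard, card_univ, Fintype.card_fin] at h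

/-- the sets of `ext l G` cover the sets with `a + l + 1` points -/
lemma ext_cov {l r a : ℕ} (hl : 1 ≤ l) (hr : 1 ≤ r) {G : Finset (Finset (Fin n))}
    (hG : Pool.Agent.H688R3.TuranGen.Cov r (a + 1) G) :
    Pool.Agent.H688R3.TuranGen.Cov (r + 1) (a + l + 1) (ext l G) := by
  refine ⟨fun e he => ?_, fun Y hY => ?_⟩
  · obtain ⟨X, hX, hi⟩ := mem_biUnion.1 he
    obtain ⟨v, hv, rfl⟩ := mem_image.1 hi
    obtain ⟨x, hx, hmin, hlt, -⟩ := (mem_filter.1 hv).2
    have hvX : v ∉ X := fun h => absurd (hmin v h) (not_le.2 hlt)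
    rw [card_insert_of_notMem hvX, hG.1 X hX]
  · set Y' : Finset (Fin n) := Y.filter fun x => ∃ v ∈ Y, v < x ∧ v.val ≡ x.val [MOD l] with hY'
    have h1 : (Y.filter fun x => ¬ ∃ v ∈ Y, v < x ∧ v.val ≡ x.val [MOD l]).card ≤ l := by
      have h2 := card_le_card_of_injOn (s := Y.filter fun x => ¬ ∃ v ∈ Y, v < x ∧
        v.val ≡ x.val [MOD l]) (t := range l) (fun x => x.val % l)
        (fun x _ => by
          rw [mem_coe, mem_range]
          exact Nat.mod_lt _ (by omega)) (by
        intro x hx x' hx' h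
        rw [mem_coe, mem_filter] at hx hx'
        by_contra hne
        rcases lt_or_gt_of_ne hne with hlt | hlt
        · exact hx'.2 ⟨x, hx.1, hlt, h⟩
        · exact hx.2 ⟨x', hx'.1, hlt, h.symm⟩)
      rwa [card_range] at h2
    have h3 := card_filter_add_card_filter_not (s := Y)
      (fun x => ∃ v ∈ Y, v < x ∧ v.val ≡ x.val [MOD l])
    rw [← hY', hY] at h3
    obtain ⟨S, hS, hSc⟩ := exists_subset_card_eq (s := Y') (n := a + 1) (by omega)
    obtain ⟨X, hX, hXS⟩ := hG.2 S hSc
    have hXne : X.Nonempty := by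
      rw [← card_pos, hG.1 X hX]
      omega
    obtain ⟨x, hx, hmin⟩ := exists_min_image X id hXne
    simp only [id] at hmin
    have hxY := hS (hXS hx)
    rw [hY', mem_filter] at hxY
    obtain ⟨-, v, hvY, hlt, hmod⟩ := hxY
    refine ⟨insert v X, mem_biUnion.2 ⟨X, hX, mem_image.2 ⟨v, mem_filter.2 ⟨mem_univ _, x, hx,
      hmin, hlt, hmod⟩, rfl⟩⟩, ?_⟩
    refine insert_subset hvY fun z hz => ?_
    have := hS (hXS hz)
    rw [hY', mem_filter] at this
    exact this.1

lemma card_ext_le {l : ℕ} (G : Finset (Finset (Fin n))) :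
    (ext l G).card ≤ ∑ X ∈ G, (low l X).card :=
  card_biUnion_le.trans (sum_le_sum fun _ _ => card_image_le)

/-- `G` transported by a permutation -/
def act (σ : Equiv.Perm (Fin n)) (G : Finset (Finset (Fin n))) : Finset (Finset (Fin n)) :=
  G.image fun X => X.map σ.toEmbedding

lemma act_cov {r m : ℕ} (σ : Equiv.Perm (Fin n)) {G : Finset (Finset (Fin n))}
    (hG : Pool.Agent.H688R3.TuranGen.Cov r m G) :
    Pool.Agent.H688R3.TuranGen.Cov r m (act σ G) := by
  refine ⟨fun e he => ?_, fun Y hY => ?_⟩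
  · obtain ⟨X, hX, rfl⟩ := mem_image.1 he
    rw [card_map, hG.1 X hX]
  · obtain ⟨X, hX, hXY⟩ := hG.2 (Y.map σ.symm.toEmbedding) (by rw [card_map, hY])
    refine ⟨X.map σ.toEmbedding, mem_image.2 ⟨X, hX, rfl⟩, fun z hz => ?_⟩
    obtain ⟨x, hx, rfl⟩ := mem_map.1 hz
    obtain ⟨y, hy, hyx⟩ := mem_map.1 (hXY hx)
    have : σ.toEmbedding x = y := by
      rw [← hyx]
      simp
    rw [this]
    exact hy

lemma sum_act_le (σ : Equiv.Perm (Fin n)) (G : Finset (Finset (Fin n)))
    (f : Finset (Fin n) → ℕ) :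
    ∑ X ∈ act σ G, f X = ∑ X ∈ G, f (X.map σ.toEmbedding) := by
  unfold act
  rw [sum_image fun X _ X' _ h => Finset.map_injective _ h]

/-- all `r`-sets have the same average over the permutations -/
lemma avg_const {r : ℕ} (f : Finset (Fin n) → ℕ) {X X' : Finset (Fin n)} (hX : X.card = r)
    (hX' : X'.card = r) : ∑ σ : Equiv.Perm (Fin n), f (X.map σ.toEmbedding) =
      ∑ σ : Equiv.Perm (Fin n), f (X'.map σ.toEmbedding) := by
  obtain ⟨e⟩ : Nonempty ({x // x ∈ X} ≃ {x // x ∈ X'}) :=
    Fintype.card_eq.1 (by rw [Fintype.card_coe, Fintype.card_coe, hX, hX'])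
  let τ : Equiv.Perm (Fin n) := e.extendSubtype
  have hτ : X.map τ.toEmbedding = X' := by
    refine eq_of_subset_of_card_le (fun z hz => ?_) (by rw [card_map, hX, hX'])
    obtain ⟨x, hx, rfl⟩ := mem_map.1 hz
    exact Equiv.extendSubtype_mem e x hx
  rw [← Equiv.sum_comp (Equiv.mulRight τ) (fun σ => f (X.map σ.toEmbedding))]
  refine sum_congr rfl fun σ _ => ?_
  rw [← hτ, Finset.map_map]
  rfl

lemma sum_perm_all {r : ℕ} (f : Finset (Fin n) → ℕ) (σ : Equiv.Perm (Fin n)) :
    ∑ X ∈ powersetCard r (univ : Finset (Fin n)), f (X.map σ.toEmbedding) =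
      ∑ X ∈ powersetCard r (univ : Finset (Fin n)), f X := by
  refine sum_bij' (fun X _ => X.map σ.toEmbedding) (fun X _ => X.map σ.symm.toEmbedding) ?_ ?_ ?_
    ?_ ?_
  · intro X hX
    rw [mem_powersetCard] at hX ⊢
    exact ⟨subset_univ _, by rw [card_map, hX.2]⟩
  · intro X hX
    rw [mem_powersetCard] at hX ⊢
    exact ⟨subset_univ _, by rw [card_map, hX.2]⟩
  · intro X _
    rw [Finset.map_map]
    convert Finset.map_refl
    ext x
    simp
  · intro X _
    rw [Finset.map_map]
    convert Finset.map_refl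
    ext x
    simp
  · intro X _
    rfl

/-- some permutation is as good as the average -/
lemma exists_perm {r : ℕ} (f : Finset (Fin n) → ℕ) {G : Finset (Finset (Fin n))}
    (hG : ∀ X ∈ G, X.card = r) : ∃ σ : Equiv.Perm (Fin n),
      (n.choose r) * ∑ X ∈ G, f (X.map σ.toEmbedding) ≤
        G.card * ∑ X ∈ powersetCard r (univ : Finset (Fin n)), f X := by
  set F := ∑ X ∈ powersetCard r (univ : Finset (Fin n)), f X with hF
  have hs : ∀ X ∈ G, n.choose r * ∑ σ : Equiv.Perm (Fin n), f (X.map σ.toEmbedding) =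
      Fintype.card (Equiv.Perm (Fin n)) * F := by
    intro X hX
    have h1 : ∑ X' ∈ powersetCard r (univ : Finset (Fin n)), ∑ σ : Equiv.Perm (Fin n),
        f (X'.map σ.toEmbedding) = ∑ X' ∈ powersetCard r (univ : Finset (Fin n)),
          ∑ σ : Equiv.Perm (Fin n), f (X.map σ.toEmbedding) :=
      sum_congr rfl fun X' hX' => avg_const f (mem_powersetCard.1 hX').2 (hG X hX)
    rw [sum_const, card_powersetCard, card_univ, Fintype.card_fin, smul_eq_mul] at h1
    rw [← h1, sum_comm]
    simp only [sum_perm_all]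
    rw [sum_const, card_univ, smul_eq_mul]
  have h2 : ∑ σ : Equiv.Perm (Fin n), (n.choose r * ∑ X ∈ G, f (X.map σ.toEmbedding)) ≤
      ∑ σ : Equiv.Perm (Fin n), G.card * F := by
    rw [← mul_sum, sum_comm, mul_sum, sum_congr rfl hs, sum_const, sum_const, card_univ,
      smul_eq_mul, smul_eq_mul]
    apply le_of_eq
    ring
  obtain ⟨σ, -, hσ⟩ := exists_le_of_sum_le (univ_nonempty (α := Equiv.Perm (Fin n))) h2
  exact ⟨σ, hσ⟩

open Pool.Agent.H688R3.TuranGen (c t exists_cov c_le_card tendsto_c Cov)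

/-- the step inequality for finite systems -/
theorem c_step {r a l : ℕ} (hr : 1 ≤ r) (ha : r ≤ a + 1) (hl : 1 ≤ l) (hrn : r + 1 ≤ n) :
    c (r + 1) (a + l + 1) n / (n.choose (r + 1) : ℝ) ≤
      1 / (l : ℝ) * (c r (a + 1) n / (n.choose r : ℝ)) := by
  obtain ⟨G, hG, hGc⟩ := exists_cov ha n
  obtain ⟨σ, hσ⟩ := exists_perm (n := n) (fun X => (low l X).card) hG.1
  have h1 : c (r + 1) (a + l + 1) n ≤ ((ext l (act σ G)).card : ℝ) :=
    c_le_card (ext_cov hl hr (act_cov σ hG))
  have h2 : (ext l (act σ G)).card ≤ ∑ X ∈ G, (low l (X.map σ.toEmbedding)).card := by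
    refine (card_ext_le _).trans (le_of_eq ?_)
    exact sum_act_le σ G fun X => (low l X).card
  have h3 : l * ∑ X ∈ powersetCard r (univ : Finset (Fin n)), (low l X).card ≤
      n.choose (r + 1) := by
    rw [mul_sum]
    refine (sum_le_sum fun X hX => card_low_le hl ?_).trans sum_below
    rw [← card_pos, (mem_powersetCard.1 hX).2]
    omega
  have h4 : l * (n.choose r * (ext l (act σ G)).card) ≤ G.card * n.choose (r + 1) := by
    calc l * (n.choose r * (ext l (act σ G)).card) ≤
        l * (n.choose r * ∑ X ∈ G, (low l (X.map σ.toEmbedding)).card) :=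
          Nat.mul_le_mul_left _ (Nat.mul_le_mul_left _ h2)
      _ ≤ l * (G.card * ∑ X ∈ powersetCard r (univ : Finset (Fin n)), (low l X).card) :=
          Nat.mul_le_mul_left _ hσ
      _ = G.card * (l * ∑ X ∈ powersetCard r (univ : Finset (Fin n)), (low l X).card) := by ring
      _ ≤ _ := Nat.mul_le_mul_left _ h3
  have h4' : (l : ℝ) * ((n.choose r : ℝ) * ((ext l (act σ G)).card : ℝ)) ≤
      (G.card : ℝ) * (n.choose (r + 1) : ℝ) := by exact_mod_cast h4
  have p1 : (0 : ℝ) < (n.choose (r + 1) : ℝ) := by exact_mod_cast Nat.choose_pos hrn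
  have p2 : (0 : ℝ) < (n.choose r : ℝ) := by
    exact_mod_cast Nat.choose_pos (by omega : r ≤ n)
  have l0 : (0 : ℝ) < l := by exact_mod_cast hl
  rw [← hGc]
  have h5 : c (r + 1) (a + l + 1) n / (n.choose (r + 1) : ℝ) ≤
      ((ext l (act σ G)).card : ℝ) / (n.choose (r + 1) : ℝ) :=
    div_le_div_of_nonneg_right h1 p1.le
  refine h5.trans ?_
  rw [div_mul_div_comm, one_mul, div_le_div_iff₀ p1 (by positivity)]
  calc ((ext l (act σ G)).card : ℝ) * ((l : ℝ) * (n.choose r : ℝ)) =
      (l : ℝ) * ((n.choose r : ℝ) * ((ext l (act σ G)).card : ℝ)) := by ring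
    _ ≤ _ := h4'

/-- **the step inequality for the densities** -/
theorem t_step {r a l : ℕ} (hr : 1 ≤ r) (ha : r ≤ a + 1) (hl : 1 ≤ l) :
    t (r + 1) (a + l + 1) ≤ t r (a + 1) / (l : ℝ) := by
  have h1 := tendsto_c (r + 1) (a + l + 1)
  have h2 := (tendsto_c r (a + 1)).const_mul (1 / (l : ℝ))
  have h3 : 1 / (l : ℝ) * t r (a + 1) = t r (a + 1) / (l : ℝ) := by ring
  rw [h3] at h2
  refine le_of_tendsto_of_tendsto h1 h2 ?_
  filter_upwards [eventually_ge_atTop (r + 1)] with n hn
  exact c_step hr ha hl hn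

end Pool.Agent.H69.ColO.Step
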