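import Pool.Agent.H69.ColO.Step

/-!
The step inequality for the limits: `L_{t+1} ≤ t^t / (t-1)^(t-1) L_t`.
-/

set_option autoImplicit false
set_option linter.unusedSectionVars false

open Finset Filter Topology

namespace Pool.Agent.H69.ColO.Step

/-- the step inequality for the limits -/
theorem limit_step {s : ℕ} (hs : 1 ≤ s) {L L' : ℝ}
    (hL : Tendsto (fun k : ℕ => ((k : ℝ) - 1) ^ s * Pool.Agent.H688R3.TuranGen.t (s + 1) k) atTop
      (𝓝 L))
    (hL' : ∀ k : ℕ, s + 2 ≤ k → L' ≤ ((k : ℝ) - 1) ^ (s + 1) *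
      Pool.Agent.H688R3.TuranGen.t (s + 2) k) :
    L' ≤ ((s : ℝ) + 1) ^ (s + 1) / (s : ℝ) ^ s * L := by
  have s0 : (0 : ℝ) < s := by exact_mod_cast (show 0 < s by omega)
  have h1 : Tendsto (fun b : ℕ => s * (b + 1) + 1) atTop atTop := by
    refine tendsto_atTop_mono (fun b => ?_) tendsto_id
    have : 1 * (b + 1) ≤ s * (b + 1) := Nat.mul_le_mul_right _ hs
    simp only [id]
    omega
  have h2 := (hL.comp h1).const_mul (((s : ℝ) + 1) ^ (s + 1) / (s : ℝ) ^ s)
  refine ge_of_tendsto' h2 fun b => ?_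
  have hle : 1 * (b + 1) ≤ s * (b + 1) := Nat.mul_le_mul_right _ hs
  have hb : s + 1 ≤ s * (b + 1) + 1 := by
    have : s * 1 ≤ s * (b + 1) := Nat.mul_le_mul_left _ (by omega)
    omega
  have h3 := t_step (r := s + 1) (a := s * (b + 1)) (l := b + 1) (by omega) hb (by omega)
  have h4 := hL' (s * (b + 1) + (b + 1) + 1) (by omega)
  have b0 : (0 : ℝ) < (b : ℝ) + 1 := by positivity
  have e1 : ((s * (b + 1) + (b + 1) + 1 : ℕ) : ℝ) - 1 = ((s : ℝ) + 1) * ((b : ℝ) + 1) := by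
    push_cast
    ring
  have e2 : ((s * (b + 1) + 1 : ℕ) : ℝ) - 1 = (s : ℝ) * ((b : ℝ) + 1) := by
    push_cast
    ring
  rw [e1] at h4
  refine h4.trans ((mul_le_mul_of_nonneg_left h3 (by positivity)).trans (le_of_eq ?_))
  simp only [Function.comp]
  rw [e2]
  push_cast
  rw [mul_pow, mul_pow, pow_succ ((b : ℝ) + 1) s]
  field_simp

end Pool.Agent.H69.ColO.Step
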